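import Mathlib

/-!
# Growth of the Hilbert function
-/

open MvPolynomial

namespace Pool.Agent.H8.HZ

section

variable {k : Type*} [Field k] {N : ℕ}

/-- the polynomials of degree at most `t` modulo `V` -/
noncomputable def Wt (V : Ideal (MvPolynomial (Fin N) k)) (t : ℕ) :
    Submodule k (MvPolynomial (Fin N) k ⧸ V) :=
  (restrictTotalDegree (Fin N) k t).map (Ideal.Quotient.mkₐ k V).toLinearMap

instance (V : Ideal (MvPolynomial (Fin N) k)) (t : ℕ) : Module.Finite k (Wt V t) := by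
  rw [Wt]
  infer_instance

/-- the Hilbert function -/
noncomputable def Hf (V : Ideal (MvPolynomial (Fin N) k)) (t : ℕ) : ℕ :=
  Module.finrank k (Wt V t)

theorem mem_Wt {V : Ideal (MvPolynomial (Fin N) k)} {t : ℕ} {g : MvPolynomial (Fin N) k}
    (hg : g.totalDegree ≤ t) : Ideal.Quotient.mk V g ∈ Wt V t :=
  ⟨g, (mem_restrictTotalDegree _ _ _).mpr hg, rfl⟩

theorem exists_of_mem_Wt {V : Ideal (MvPolynomial (Fin N) k)} {t : ℕ}
    {x : MvPolynomial (Fin N) k ⧸ V} (hx : x ∈ Wt V t) :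
    ∃ g : MvPolynomial (Fin N) k, g.totalDegree ≤ t ∧ Ideal.Quotient.mk V g = x := by
  obtain ⟨g, hg, hgx⟩ := hx
  exact ⟨g, (mem_restrictTotalDegree _ _ _).mp hg, hgx⟩

/-- the lower bound -/
theorem Hf_lower (V : Ideal (MvPolynomial (Fin N) k)) (G : Fin N → MvPolynomial (Fin N) k)
    {D E s : ℕ} (θ : MvPolynomial (Fin N) k)
    (hG : ∀ g : MvPolynomial (Fin N) k, (aeval G g).totalDegree ≤ g.totalDegree * D)
    (hs : (E - 1) * θ.totalDegree ≤ s)
    (hstar : ∀ c : Fin E → MvPolynomial (Fin N) k,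
      ∑ i : Fin E, θ ^ (i : ℕ) * aeval G (c i) ∈ V → ∀ i, c i ∈ V) (t : ℕ) :
    E * Hf V t ≤ Hf V (s + D * t) := by
  classical
  set b := Module.finBasis k (Wt V t) with hb
  choose g hg1 hg2 using fun j => exists_of_mem_Wt (b j).2
  have hmem : ∀ ij : Fin E × Fin (Module.finrank k (Wt V t)),
      Ideal.Quotient.mk V (θ ^ (ij.1 : ℕ) * aeval G (g ij.2)) ∈ Wt V (s + D * t) := by
    rintro ⟨i, j⟩
    apply mem_Wt
    refine (totalDegree_mul _ _).trans (Nat.add_le_add ?_ ?_)
    · refine (totalDegree_pow _ _).trans (le_trans ?_ hs)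
      apply Nat.mul_le_mul_right
      have := i.2
      omega
    · refine (hG _).trans ?_
      rw [mul_comm]
      exact Nat.mul_le_mul_left _ (hg1 j)
  have hli : LinearIndependent k (fun ij : Fin E × Fin (Module.finrank k (Wt V t)) =>
      (⟨_, hmem ij⟩ : Wt V (s + D * t))) := by
    rw [Fintype.linearIndependent_iff]
    intro lam hlam
    have h1 : Ideal.Quotient.mk V (∑ i : Fin E, θ ^ (i : ℕ) *
        aeval G (∑ j, C (lam (i, j)) * g j)) = 0 := by
      have h2 := congrArg (fun x : Wt V (s + D * t) => (x : MvPolynomial (Fin N) k ⧸ V)) hlam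
      simp only [Submodule.coe_sum, Submodule.coe_smul, Submodule.coe_zero] at h2
      rw [← h2, Fintype.sum_prod_type, map_sum]
      apply Finset.sum_congr rfl
      intro i _
      rw [map_sum, Finset.mul_sum, map_sum]
      apply Finset.sum_congr rfl
      intro j _
      rw [map_mul (aeval G), aeval_C, algebraMap_eq]
      have h3 : θ ^ (i : ℕ) * (C (lam (i, j)) * aeval G (g j)) =
          lam (i, j) • (θ ^ (i : ℕ) * aeval G (g j)) := by
        rw [smul_eq_C_mul]; ring
      rw [h3]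
      rfl
    rw [Ideal.Quotient.eq_zero_iff_mem] at h1
    have h2 := hstar _ h1
    rintro ⟨i, j⟩
    have h3 := h2 i
    rw [← Ideal.Quotient.eq_zero_iff_mem, map_sum] at h3
    have h4 : ∑ j, lam (i, j) • b j = 0 := by
      apply Subtype.ext
      rw [Submodule.coe_sum, Submodule.coe_zero, ← h3]
      apply Finset.sum_congr rfl
      intro j _
      rw [Submodule.coe_smul, ← hg2 j, ← smul_eq_C_mul]
      rfl
    exact Fintype.linearIndependent_iff.mp b.linearIndependent _ h4 j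
  have h5 := hli.fintype_card_le_finrank
  rw [Fintype.card_prod, Fintype.card_fin, Fintype.card_fin] at h5
  exact h5

/-- the exponents of degree at most `t` -/
def Mt (N t : ℕ) : Set (Fin N →₀ ℕ) := {n | (n.sum fun _ e => e) ≤ t}

theorem sum_eq_sum_univ {N : ℕ} (m : Fin N →₀ ℕ) : (m.sum fun _ e => e) = ∑ i, m i :=
  Finsupp.sum_fintype _ _ fun _ => rfl

theorem le_of_mem_Mt {N t : ℕ} {m : Fin N →₀ ℕ} (hm : m ∈ Mt N t) (i : Fin N) : m i ≤ t := by
  have h1 : ∑ i, m i ≤ t := by rw [← sum_eq_sum_univ]; exact hm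
  exact (Finset.single_le_sum (fun _ _ => Nat.zero_le _) (Finset.mem_univ i)).trans h1

theorem finite_Mt (N t : ℕ) : (Mt N t).Finite := by
  apply Set.Finite.of_finite_image (f := fun m : Fin N →₀ ℕ => (m : Fin N → ℕ))
  · apply Set.Finite.subset (Finset.finite_toSet (Fintype.piFinset fun _ => Finset.range (t + 1)))
    rintro _ ⟨m, hm, rfl⟩
    rw [Finset.mem_coe, Fintype.mem_piFinset]
    intro i
    rw [Finset.mem_range]
    exact Nat.lt_succ_of_le (le_of_mem_Mt hm i)
  · intro a _ b _ h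
    exact DFunLike.coe_injective h

theorem finrank_restrictTotalDegree (t : ℕ) :
    Module.finrank k (restrictTotalDegree (Fin N) k t) = (Mt N t).ncard := by
  exact Module.finrank_eq_nat_card_basis (basisRestrictSupport k (Mt N t))

theorem ncard_small {n δ t : ℕ} :
    {m : Fin (n + 1) →₀ ℕ | m ∈ Mt (n + 1) t ∧ m 0 < δ}.ncard ≤ δ * (t + 1) ^ n := by
  classical
  set T : Finset (ℕ × (Fin n → ℕ)) :=
    Finset.range δ ×ˢ Fintype.piFinset (fun _ => Finset.range (t + 1)) with hT
  have hcard : T.card = δ * (t + 1) ^ n := by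
    rw [hT, Finset.card_product, Finset.card_range, Fintype.card_piFinset]
    simp
  rw [← hcard, ← Set.ncard_coe_finset]
  apply Set.ncard_le_ncard_of_injOn (fun m : Fin (n + 1) →₀ ℕ => (m 0, fun i : Fin n => m i.succ))
  · rintro m ⟨hm, hm0⟩
    rw [Finset.mem_coe, hT, Finset.mem_product, Fintype.mem_piFinset]
    refine ⟨Finset.mem_range.mpr hm0, fun i => ?_⟩
    rw [Finset.mem_range]
    exact Nat.lt_succ_of_le (le_of_mem_Mt hm i.succ)
  · intro a _ b _ hab
    rw [Prod.mk.injEq] at hab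
    ext i
    refine Fin.cases hab.1 (fun j => ?_) i
    exact congrFun hab.2 j

theorem ncard_Mt_le {n δ t : ℕ} (h : δ ≤ t) :
    (Mt (n + 1) t).ncard ≤ δ * (t + 1) ^ n + (Mt (n + 1) (t - δ)).ncard := by
  classical
  have h1 : Mt (n + 1) t ⊆ {m : Fin (n + 1) →₀ ℕ | m ∈ Mt (n + 1) t ∧ m 0 < δ} ∪
      (fun m => m + Finsupp.single 0 δ) '' Mt (n + 1) (t - δ) := by
    intro m hm
    rcases Nat.lt_or_ge (m 0) δ with h2 | h2
    · exact Or.inl ⟨hm, h2⟩
    · right
      have h3 : m - Finsupp.single 0 δ + Finsupp.single 0 δ = m := by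
        apply tsub_add_cancel_of_le
        rw [Finsupp.single_le_iff]
        exact h2
      refine ⟨m - Finsupp.single 0 δ, ?_, h3⟩
      have h4 : ∑ i, m i ≤ t := by rw [← sum_eq_sum_univ]; exact hm
      have h5 : ∑ i, (m - Finsupp.single 0 δ : Fin (n + 1) →₀ ℕ) i + δ = ∑ i, m i := by
        conv_rhs => rw [← h3]
        simp only [Finsupp.add_apply, Finset.sum_add_distrib]
        congr 1
        rw [Finset.sum_eq_single 0]
        · rw [Finsupp.single_eq_same]
        · intro i _ hi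
          rw [Finsupp.single_eq_of_ne hi]
        · intro h6; exact absurd (Finset.mem_univ _) h6
      change ((m - Finsupp.single 0 δ).sum fun _ e => e) ≤ t - δ
      rw [sum_eq_sum_univ]
      omega
  calc (Mt (n + 1) t).ncard ≤ _ := Set.ncard_le_ncard h1
        (((finite_Mt _ t).subset fun m hm => hm.1).union ((finite_Mt _ _).image _))
    _ ≤ _ := Set.ncard_union_le _ _
    _ ≤ _ := Nat.add_le_add ncard_small (Set.ncard_image_le (finite_Mt _ _))

/-- the upper bound -/
theorem Hf_upper {n : ℕ} (V : Ideal (MvPolynomial (Fin (n + 1)) k))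
    {S : MvPolynomial (Fin (n + 1)) k} (hS0 : S ≠ 0) (hS : S ∈ V) (t : ℕ) :
    Hf V t ≤ S.totalDegree * (t + 1) ^ n := by
  classical
  set φ : restrictTotalDegree (Fin (n + 1)) k t →ₗ[k] (MvPolynomial (Fin (n + 1)) k ⧸ V) :=
    (Ideal.Quotient.mkₐ k V).toLinearMap.comp (Submodule.subtype _) with hφ
  have h1 : Hf V t = Module.finrank k (LinearMap.range φ) := by
    rw [Hf, Wt, hφ, LinearMap.range_comp, Submodule.range_subtype]
  have h2 := LinearMap.finrank_range_add_finrank_ker φ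
  rw [finrank_restrictTotalDegree, ← h1] at h2
  rcases Nat.lt_or_ge t S.totalDegree with h3 | h3
  · have h4 : {m : Fin (n + 1) →₀ ℕ | m ∈ Mt (n + 1) t ∧ m 0 < S.totalDegree} =
        Mt (n + 1) t := by
      ext m
      exact ⟨fun h => h.1, fun h => ⟨h, lt_of_le_of_lt (le_of_mem_Mt h 0) h3⟩⟩
    have h5 := ncard_small (n := n) (δ := S.totalDegree) (t := t)
    rw [h4] at h5
    omega
  · have h4 : (Mt (n + 1) (t - S.totalDegree)).ncard ≤ Module.finrank k (LinearMap.ker φ) := by
      rw [← finrank_restrictTotalDegree (k := k)]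
      have hmem : ∀ g : restrictTotalDegree (Fin (n + 1)) k (t - S.totalDegree),
          S * (g : MvPolynomial (Fin (n + 1)) k) ∈ restrictTotalDegree (Fin (n + 1)) k t := by
        intro g
        rw [mem_restrictTotalDegree]
        have h5 := (mem_restrictTotalDegree _ _ _).mp g.2
        have h6 := totalDegree_mul S (g : MvPolynomial (Fin (n + 1)) k)
        omega
      have hker : ∀ g : restrictTotalDegree (Fin (n + 1)) k (t - S.totalDegree),
          (⟨_, hmem g⟩ : restrictTotalDegree (Fin (n + 1)) k t) ∈ LinearMap.ker φ := by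
        intro g
        rw [LinearMap.mem_ker]
        change Ideal.Quotient.mk V (S * (g : MvPolynomial (Fin (n + 1)) k)) = 0
        rw [Ideal.Quotient.eq_zero_iff_mem]
        exact V.mul_mem_right _ hS
      let ψ : restrictTotalDegree (Fin (n + 1)) k (t - S.totalDegree) →ₗ[k] LinearMap.ker φ :=
        { toFun := fun g => ⟨⟨_, hmem g⟩, hker g⟩
          map_add' := by
            intro g h
            apply Subtype.ext
            apply Subtype.ext
            change S * ((g : MvPolynomial (Fin (n + 1)) k) + h) = S * g + S * h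
            ring
          map_smul' := by
            intro c g
            apply Subtype.ext
            apply Subtype.ext
            change S * (c • (g : MvPolynomial (Fin (n + 1)) k)) = c • (S * g)
            rw [mul_smul_comm] }
      apply LinearMap.finrank_le_finrank_of_injective (f := ψ)
      intro g h hgh
      apply Subtype.ext
      have h5 : S * (g : MvPolynomial (Fin (n + 1)) k) = S * h :=
        congrArg (fun x : LinearMap.ker φ => ((x : restrictTotalDegree (Fin (n + 1)) k t) :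
          MvPolynomial (Fin (n + 1)) k)) hgh
      exact mul_left_cancel₀ hS0 h5
    have h5 := ncard_Mt_le (n := n) h3
    omega

theorem Hf_zero_pos {V : Ideal (MvPolynomial (Fin N) k)} (hV : V ≠ ⊤) : 1 ≤ Hf V 0 := by
  have h1 : (⟨Ideal.Quotient.mk V 1, mem_Wt (by rw [totalDegree_one])⟩ : Wt V 0) ≠ 0 := by
    intro h0
    have h2 : Ideal.Quotient.mk V 1 = 0 := congrArg Subtype.val h0
    rw [Ideal.Quotient.eq_zero_iff_mem] at h2
    exact hV ((Ideal.eq_top_iff_one V).mpr h2)
  have : Nontrivial (Wt V 0) := ⟨_, _, h1⟩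
  exact Module.finrank_pos

/-- exponential growth beats a polynomial -/
theorem not_growth {A E δ s n : ℕ} (hA : 1 ≤ A) (h : A < E)
    (hle : ∀ j : ℕ, E ^ j ≤ δ * ((s * j + 1) ^ n * A ^ j)) : False := by
  have hA' : (0 : ℝ) < A := by exact_mod_cast hA
  have hE' : (0 : ℝ) < E := by
    have : 0 < E := by omega
    exact_mod_cast this
  have h1 : ∀ j : ℕ, 1 ≤ (δ : ℝ) * ((s * j + 1 : ℝ) ^ n * ((A : ℝ) / E) ^ j) := by
    intro j
    have h2 := hle j
    have h3 : ((E : ℝ)) ^ j ≤ δ * ((s * j + 1 : ℝ) ^ n * (A : ℝ) ^ j) := by exact_mod_cast h2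
    rw [div_pow]
    have h4 : 0 < (E : ℝ) ^ j := pow_pos hE' j
    calc (1 : ℝ) = (E : ℝ) ^ j / (E : ℝ) ^ j := (div_self h4.ne').symm
      _ ≤ (δ * ((s * j + 1 : ℝ) ^ n * (A : ℝ) ^ j)) / (E : ℝ) ^ j :=
          div_le_div_of_nonneg_right h3 h4.le
      _ = _ := by ring
  have hr : |(A : ℝ) / E| < 1 := by
    rw [abs_of_pos (div_pos hA' hE'), div_lt_one hE']
    exact_mod_cast h
  have h5 : Filter.Tendsto (fun j : ℕ => (j : ℝ) ^ n * ((A : ℝ) / E) ^ j) Filter.atTop (nhds 0) :=
    tendsto_pow_const_mul_const_pow_of_abs_lt_one n hr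
  have h6 : Filter.Tendsto (fun j : ℕ => ((δ : ℝ) * (s + 1) ^ n) *
      ((j : ℝ) ^ n * ((A : ℝ) / E) ^ j)) Filter.atTop (nhds 0) := by
    have := h5.const_mul ((δ : ℝ) * (s + 1) ^ n)
    rwa [mul_zero] at this
  obtain ⟨j, hj⟩ := ((h6.eventually_lt_const one_pos).and (Filter.eventually_ge_atTop 1)).exists
  have h7 := h1 j
  have h8 : (δ : ℝ) * ((s * j + 1 : ℝ) ^ n * ((A : ℝ) / E) ^ j) ≤
      ((δ : ℝ) * (s + 1) ^ n) * ((j : ℝ) ^ n * ((A : ℝ) / E) ^ j) := by
    have h9 : (s * j + 1 : ℝ) ≤ (s + 1) * j := by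
      have : (1 : ℝ) ≤ j := by exact_mod_cast hj.2
      nlinarith
    have h10 : (s * j + 1 : ℝ) ^ n ≤ (s + 1) ^ n * (j : ℝ) ^ n := by
      rw [← mul_pow]
      exact pow_le_pow_left₀ (by positivity) h9 n
    calc (δ : ℝ) * ((s * j + 1 : ℝ) ^ n * ((A : ℝ) / E) ^ j)
        ≤ δ * (((s + 1) ^ n * (j : ℝ) ^ n) * ((A : ℝ) / E) ^ j) := by gcongr
      _ = _ := by ring
  linarith [hj.1]

/-- **GRW** -/
theorem eq_bot_of_growth {n : ℕ} (V : Ideal (MvPolynomial (Fin (n + 1)) k)) (hV : V ≠ ⊤)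
    (G : Fin (n + 1) → MvPolynomial (Fin (n + 1)) k) {D E : ℕ} (hD1 : 1 ≤ D)
    (hG : ∀ g : MvPolynomial (Fin (n + 1)) k, (aeval G g).totalDegree ≤ g.totalDegree * D)
    (hDE : D ^ n < E) (θ : MvPolynomial (Fin (n + 1)) k)
    (hstar : ∀ c : Fin E → MvPolynomial (Fin (n + 1)) k,
      ∑ i : Fin E, θ ^ (i : ℕ) * aeval G (c i) ∈ V → ∀ i, c i ∈ V) : V = ⊥ := by
  by_contra hne
  obtain ⟨S, hS, hS0⟩ := Submodule.exists_mem_ne_zero_of_ne_bot hne
  set s := (E - 1) * θ.totalDegree with hs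
  -- the sequence of degrees
  have h1 : ∀ j : ℕ, ∃ t : ℕ, t ≤ s * j * D ^ j ∧ E ^ j ≤ Hf V t := by
    intro j
    induction j with
    | zero => exact ⟨0, Nat.zero_le _, by rw [pow_zero]; exact Hf_zero_pos hV⟩
    | succ j ih =>
      obtain ⟨t, ht, hE⟩ := ih
      refine ⟨s + D * t, ?_, ?_⟩
      · have h2 : D * t ≤ s * j * D ^ (j + 1) := by
          calc D * t ≤ D * (s * j * D ^ j) := Nat.mul_le_mul_left _ ht
            _ = s * j * D ^ (j + 1) := by ring
        have h3 : s ≤ s * D ^ (j + 1) := Nat.le_mul_of_pos_right _ (pow_pos hD1 _)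
        calc s + D * t ≤ s * D ^ (j + 1) + s * j * D ^ (j + 1) := Nat.add_le_add h3 h2
          _ = s * (j + 1) * D ^ (j + 1) := by ring
      · calc E ^ (j + 1) = E * E ^ j := pow_succ' E j
          _ ≤ E * Hf V t := Nat.mul_le_mul_left _ hE
          _ ≤ Hf V (s + D * t) := Hf_lower V G θ hG le_rfl hstar t
  apply not_growth (A := D ^ n) (E := E) (δ := S.totalDegree) (s := s) (n := n)
    (Nat.one_le_pow _ _ hD1) hDE
  intro j
  obtain ⟨t, ht, hE⟩ := h1 j
  refine hE.trans ((Hf_upper V hS0 hS t).trans (Nat.mul_le_mul_left _ ?_))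
  calc (t + 1) ^ n ≤ ((s * j + 1) * D ^ j) ^ n := by
        apply Nat.pow_le_pow_left
        have : 1 ≤ D ^ j := Nat.one_le_pow _ _ hD1
        nlinarith
    _ = (s * j + 1) ^ n * (D ^ n) ^ j := by
        rw [mul_pow]
        congr 1
        rw [← pow_mul, ← pow_mul, mul_comm]

end

end Pool.Agent.H8.HZ
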