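import Pool.Agent.H8.HZ.FLW

/-!
# Counting preimages
-/

open MvPolynomial Pool.Agent.H12.ZD

namespace Pool.Agent.H8.HZ

section

variable {k : Type*} [Field k] {N : ℕ}

/-- almost every point has at least `e` preimages -/
def Cov (f : Fin N → MvPolynomial (Fin N) k) (e : ℕ) : Prop :=
  ∃ c : MvPolynomial (Fin N) k, c ≠ 0 ∧ ∀ y : Fin N → k, eval y c ≠ 0 →
    ∃ S : Finset (Fin N → k), e ≤ S.card ∧ ∀ x ∈ S, pmap f x = y

theorem exists_eval_ne [Infinite k] {h : MvPolynomial (Fin N) k} (hh : h ≠ 0) :
    ∃ y, eval y h ≠ 0 := by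
  by_contra hcon
  push Not at hcon
  exact hh (MvPolynomial.funext fun y => by rw [hcon y, map_zero])

/-- a covering map is dominant -/
theorem Cov.inj [Infinite k] {f : Fin N → MvPolynomial (Fin N) k} {e : ℕ} (hf : Cov f e)
    (he : 1 ≤ e) {h : MvPolynomial (Fin N) k} (hh : aeval f h = 0) : h = 0 := by
  by_contra hne
  obtain ⟨c, hc0, hc⟩ := hf
  obtain ⟨y, hy⟩ := exists_eval_ne (mul_ne_zero hc0 hne)
  rw [map_mul] at hy
  obtain ⟨S, hS, hS'⟩ := hc y (left_ne_zero_of_mul hy)
  obtain ⟨x, hx⟩ : S.Nonempty := by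
    rw [← Finset.card_pos]; omega
  apply right_ne_zero_of_mul hy
  rw [← hS' x hx, ← eval_aeval, hh, map_zero]

/-- the polynomial ring is algebraic over the image of a dominant map -/
theorem isAlgebraic_of_inj {f : Fin N → MvPolynomial (Fin N) k}
    (hf : ∀ h : MvPolynomial (Fin N) k, aeval f h = 0 → h = 0) :
    Algebra.IsAlgebraic (Algebra.adjoin k (Set.range f)) (MvPolynomial (Fin N) k) := by
  have h1 : AlgebraicIndependent k f := by
    rw [algebraicIndependent_iff]
    exact hf
  have h2 : IsTranscendenceBasis k f := by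
    apply h1.isTranscendenceBasis_of_lift_trdeg_le_of_finite
    rw [MvPolynomial.trdeg_of_isDomain]
    simp
  exact h2.isAlgebraic

/-- **NRM** -/
theorem exists_dvd_aeval {f : Fin N → MvPolynomial (Fin N) k}
    (hf : ∀ h : MvPolynomial (Fin N) k, aeval f h = 0 → h = 0) {h : MvPolynomial (Fin N) k} (hh : h ≠ 0) :
    ∃ d : MvPolynomial (Fin N) k, d ≠ 0 ∧ h ∣ aeval f d := by
  have h1 := isAlgebraic_of_inj hf
  obtain ⟨r, hr, hdvd⟩ := (h1.isAlgebraic h).exists_nonzero_dvd (mem_nonZeroDivisors_of_ne_zero hh)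
  have h2 : (r : MvPolynomial (Fin N) k) ∈ (aeval f : MvPolynomial (Fin N) k →ₐ[k] _).range := by
    rw [← Algebra.adjoin_range_eq_range_aeval]
    exact r.2
  obtain ⟨d, hd⟩ := h2
  refine ⟨d, ?_, ?_⟩
  · rintro rfl
    apply hr
    apply Subtype.ext
    rw [← hd, map_zero]
    rfl
  · rw [AlgHom.toRingHom_eq_coe] at hd
    have h3 : aeval f d = (r : MvPolynomial (Fin N) k) := hd
    rw [h3]
    exact hdvd

theorem ne_zero_of_dvd_aeval {f : Fin N → MvPolynomial (Fin N) k} {h d : MvPolynomial (Fin N) k}
    (hd : h ∣ aeval f d) {x : Fin N → k} (hx : eval (pmap f x) d ≠ 0) : eval x h ≠ 0 := by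
  intro h0
  obtain ⟨q, hq⟩ := hd
  apply hx
  rw [← eval_aeval, hq, map_mul, h0, zero_mul]

/-- **CNT**, iterates -/
theorem Cov.itr [Infinite k] {f : Fin N → MvPolynomial (Fin N) k} {e : ℕ} (hf : Cov f e)
    (he : 1 ≤ e) (n : ℕ) : Cov (itr f n) (e ^ n) := by
  classical
  induction n with
  | zero =>
    refine ⟨1, one_ne_zero, fun y _ => ⟨{y}, by simp, fun x hx => ?_⟩⟩
    rw [Finset.mem_singleton] at hx
    rw [pmap_itr, Function.iterate_zero, id, hx]
  | succ n ih =>
    obtain ⟨c, hc0, hc⟩ := hf
    obtain ⟨c', hc'0, hc'⟩ := ih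
    obtain ⟨d, hd0, hd⟩ := exists_dvd_aeval (f := f) (fun h hh => Cov.inj ⟨c, hc0, hc⟩ he hh) hc'0
    refine ⟨c * d, mul_ne_zero hc0 hd0, fun y hy => ?_⟩
    rw [map_mul] at hy
    obtain ⟨S, hS, hS'⟩ := hc y (left_ne_zero_of_mul hy)
    have h1 : ∀ x : S, ∃ T : Finset (Fin N → k), e ^ n ≤ T.card ∧
        ∀ w ∈ T, pmap (Pool.Agent.H8.HZ.itr f n) w = x := by
      rintro ⟨x, hx⟩
      apply hc' x
      apply ne_zero_of_dvd_aeval hd
      rw [hS' x hx]
      exact right_ne_zero_of_mul hy
    choose T hT hT' using h1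
    refine ⟨S.attach.biUnion T, ?_, ?_⟩
    · rw [Finset.card_biUnion]
      · calc e ^ (n + 1) = e * e ^ n := pow_succ' e n
          _ ≤ S.card * e ^ n := Nat.mul_le_mul_right _ hS
          _ = ∑ _x ∈ S.attach, e ^ n := by rw [Finset.sum_const, Finset.card_attach, smul_eq_mul]
          _ ≤ ∑ x ∈ S.attach, (T x).card := Finset.sum_le_sum fun x _ => hT x
      · intro x _ y _ hxy
        change Disjoint (T x) (T y)
        rw [Finset.disjoint_left]
        intro w hw hw'
        apply hxy
        apply Subtype.ext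
        rw [← hT' x w hw, ← hT' y w hw']
    · intro w hw
      rw [Finset.mem_biUnion] at hw
      obtain ⟨x, _, hw⟩ := hw
      have h2 := hT' x w hw
      rw [pmap_itr] at h2 ⊢
      rw [Function.iterate_succ_apply', h2]
      exact hS' x x.2

/-- **CNT**, conjugation by an affine map -/
theorem Cov.conj [Infinite k] {g G : Fin N → MvPolynomial (Fin N) k} {e : ℕ} (hg : Cov g e)
    {a : Fin N → k} {t : k} (ht : t ≠ 0)
    (h : ∀ z : Fin N → k, pmap g (fun i => a i + t * z i) = fun i => a i + t * pmap G z i) :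
    Cov G e := by
  classical
  obtain ⟨c, hc0, hc⟩ := hg
  have h1 : ∀ y : Fin N → k, eval y (aeval (fun i => C (a i) + C t * X i) c) =
      eval (fun i => a i + t * y i) c := by
    intro y
    rw [eval_aeval]
    congr 2
    ext i
    simp [pmap]
  have h2 : ∀ x : Fin N → k, (fun i => a i + t * ((x i - a i) / t)) = x := by
    intro x
    ext i
    field_simp
    ring
  refine ⟨aeval (fun i => C (a i) + C t * X i) c, ?_, fun y hy => ?_⟩
  · intro h0
    obtain ⟨x, hx⟩ := exists_eval_ne hc0
    apply hx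
    have h3 := h1 (fun i => (x i - a i) / t)
    rw [h0, map_zero, h2] at h3
    exact h3.symm
  · rw [h1] at hy
    obtain ⟨S, hS, hS'⟩ := hc _ hy
    refine ⟨S.image fun x i => (x i - a i) / t, ?_, ?_⟩
    · rw [Finset.card_image_of_injective]
      · exact hS
      · intro x y hxy
        rw [← h2 x, ← h2 y]
        ext i
        have h3 : (x i - a i) / t = (y i - a i) / t := congrFun hxy i
        rw [h3]
    · intro z hz
      rw [Finset.mem_image] at hz
      obtain ⟨x, hx, rfl⟩ := hz
      have h3 := h (fun i => (x i - a i) / t)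
      rw [h2, hS' x hx] at h3
      ext i
      have h4 := congrFun h3 i
      exact (mul_left_cancel₀ ht (add_left_cancel h4)).symm

/-- a derivation which kills a subalgebra kills everything algebraic over it -/
theorem derivation_eq_zero {B : Type*} [CommRing B] [IsDomain B] [Algebra k B] [CharZero B]
    (D : Derivation k B B) (A : Subalgebra k B) (hA : ∀ a ∈ A, D a = 0) {b : B}
    (hb : IsAlgebraic A b) : D b = 0 := by
  classical
  -- the derivation as an `A`-derivation
  let D' : Derivation A B B :=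
    { toFun := D
      map_add' := D.map_add
      map_smul' := by
        intro a x
        have h1 : D (a : B) = 0 := hA _ a.2
        have h2 : a • x = (a : B) * x := rfl
        rw [h2, D.leibniz, RingHom.id_apply, h1, smul_zero, add_zero]
        rfl
      map_one_eq_zero' := D.map_one_eq_zero
      leibniz' := D.leibniz }
  have hex : ∃ n, ∃ P : Polynomial A, P ≠ 0 ∧ Polynomial.aeval b P = 0 ∧ P.natDegree = n := by
    obtain ⟨P, hP, hPb⟩ := hb
    exact ⟨_, P, hP, hPb, rfl⟩
  obtain ⟨P, hP, hPb, hdeg⟩ := Nat.find_spec hex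
  have hmin := fun m (hm : m < Nat.find hex) => Nat.find_min hex hm
  have h1 : D' (Polynomial.aeval b P) = Polynomial.aeval b (Polynomial.derivative P) • D' b :=
    D'.map_aeval P b
  rw [hPb, map_zero] at h1
  have h2 : P.natDegree ≠ 0 := by
    intro h0
    rw [Polynomial.eq_C_of_natDegree_eq_zero h0, Polynomial.aeval_C] at hPb
    apply hP
    rw [Polynomial.eq_C_of_natDegree_eq_zero h0]
    have h3 : P.coeff 0 = 0 := by
      apply Subtype.ext
      exact hPb
    rw [h3, Polynomial.C_0]
  have h3 : Polynomial.derivative P ≠ 0 := by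
    intro h0
    have h4 := Polynomial.derivative_eq_zero.mp h0
    exact h2 h4
  have h4 : Polynomial.aeval b (Polynomial.derivative P) ≠ 0 := by
    intro h0
    apply hmin (Polynomial.derivative P).natDegree
    · rw [← hdeg]
      exact Polynomial.natDegree_derivative_lt h2
    · exact ⟨_, h3, h0, rfl⟩
  rw [smul_eq_mul] at h1
  exact (mul_eq_zero.mp h1.symm).resolve_left h4

theorem mkDerivation_eq_sum (h : Fin N → MvPolynomial (Fin N) k) (q : MvPolynomial (Fin N) k) :
    mkDerivation k h q = ∑ j, pderiv j q * h j := by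
  classical
  induction q using MvPolynomial.induction_on with
  | C a => simp
  | add a b ha hb => simp only [map_add, ha, hb, add_mul, Finset.sum_add_distrib]
  | mul_X a i ha =>
    rw [Derivation.leibniz, ha, mkDerivation_X]
    have h1 : ∀ j, pderiv j (a * X i) * h j =
        X i * (pderiv j a * h j) + (if j = i then a * h i else 0) := by
      intro j
      rw [pderiv_mul]
      by_cases hj : j = i
      · subst hj
        rw [pderiv_X_self, if_pos (rfl : j = j)]
        ring
      · rw [pderiv_X_of_ne (Ne.symm hj), if_neg hj]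
        ring
    simp only [h1, Finset.sum_add_distrib, Finset.sum_ite_eq', Finset.mem_univ, if_true,
      smul_eq_mul, ← Finset.mul_sum]
    ring

/-- **JNZ**: in characteristic zero a dominant map has non-zero jacobian. -/
theorem jac_ne_zero_of_inj [CharZero k] {f : Fin N → MvPolynomial (Fin N) k}
    (hf : ∀ h : MvPolynomial (Fin N) k, aeval f h = 0 → h = 0) : jac f ≠ 0 := by
  classical
  intro h0
  obtain ⟨h, hne, hh⟩ := Matrix.exists_mulVec_eq_zero_iff.mpr (show (jm f).det = 0 from h0)
  apply hne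
  have halg := isAlgebraic_of_inj hf
  set D : Derivation k (MvPolynomial (Fin N) k) (MvPolynomial (Fin N) k) :=
    mkDerivation k h with hD
  have hDf : ∀ i, D (f i) = 0 := by
    intro i
    have h1 := congrFun hh i
    rw [hD, mkDerivation_eq_sum]
    exact h1
  have hDA : ∀ a ∈ Algebra.adjoin k (Set.range f), D a = 0 := by
    intro a ha
    induction ha using Algebra.adjoin_induction with
    | mem x hx =>
      obtain ⟨i, rfl⟩ := hx
      exact hDf i
    | algebraMap r => exact D.map_algebraMap r
    | add x y _ _ hx hy => rw [map_add, hx, hy, add_zero]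
    | mul x y _ _ hx hy => rw [D.leibniz, hx, hy, smul_zero, smul_zero, add_zero]
  ext1 j
  have h2 := derivation_eq_zero D _ hDA (halg.isAlgebraic (X j))
  rw [hD, mkDerivation_X] at h2
  exact h2

end

end Pool.Agent.H8.HZ
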