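import Pool.Agent.H8.HZ.FRX
import Pool.Agent.H12.ZD.Good

/-!
# Good residue discs
-/

open MvPolynomial IsLocalRing Pool.Agent.H12.ZD

namespace Pool.Agent.H8.HZ

theorem charP_res (p : Nat.Primes) : CharP (Res p) (p : ℕ) :=
  (CharP.charP_iff_prime_eq_zero p.2).mpr (res_cast p)

/-- every element of the residue field is fixed by a power of the Frobenius -/
theorem exists_fix (p : Nat.Primes) (a : Res p) : ∃ s : ℕ, 1 ≤ s ∧ a ^ ((p : ℕ) ^ s) = a := by
  have : CharP (Res p) (p : ℕ) := charP_res p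
  by_cases ha : a = 0
  · refine ⟨1, le_rfl, ?_⟩
    rw [ha, pow_one, zero_pow p.2.ne_zero]
  obtain ⟨n, hn, h⟩ := res_finite_order p a ha
  obtain ⟨i, j, hij, h1⟩ := Finite.exists_ne_map_eq_of_infinite
    (fun j : ℕ => (⟨(p : ℕ) ^ j % n, Nat.mod_lt _ hn⟩ : Fin n))
  have h2 : (p : ℕ) ^ i % n = (p : ℕ) ^ j % n := congrArg Fin.val h1
  have h3 : ∀ e : ℕ, a ^ e = a ^ (e % n) := by
    intro e
    conv_lhs => rw [← Nat.div_add_mod e n, pow_add, pow_mul, h, one_pow, one_mul]
  have h4 : ∀ i j : ℕ, i < j → (p : ℕ) ^ i % n = (p : ℕ) ^ j % n →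
      ∃ s : ℕ, 1 ≤ s ∧ a ^ ((p : ℕ) ^ s) = a := by
    intro i j hij h2
    refine ⟨j - i, by omega, ?_⟩
    have h5 : a ^ ((p : ℕ) ^ i) = a ^ ((p : ℕ) ^ j) := by rw [h3, h2, ← h3]
    have h6 : (p : ℕ) ^ j = (p : ℕ) ^ (j - i) * (p : ℕ) ^ i := by
      rw [← pow_add]; congr 1; omega
    rw [h6, pow_mul, ← iterateFrobenius_def, ← iterateFrobenius_def (p := (p : ℕ))] at h5
    exact ((iterateFrobenius (Res p) (p : ℕ) i).injective h5).symm
  rcases Nat.lt_or_gt_of_ne hij with h5 | h5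
  · exact h4 i j h5 h2
  · exact h4 j i h5 h2.symm

theorem pow_fix (p : Nat.Primes) {a : Res p} {s : ℕ} (h : a ^ ((p : ℕ) ^ s) = a) (k : ℕ) :
    a ^ ((p : ℕ) ^ (s * k)) = a := by
  induction k with
  | zero => rw [mul_zero, pow_zero, pow_one]
  | succ k ih => rw [Nat.mul_succ, pow_add, pow_mul, ih, h]

/-- a common Frobenius power for finitely many elements -/
theorem exists_fix_finset (p : Nat.Primes) (S : Finset (Res p)) :
    ∃ s : ℕ, 1 ≤ s ∧ ∀ a ∈ S, a ^ ((p : ℕ) ^ s) = a := by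
  classical
  choose s hs using exists_fix p
  refine ⟨∏ a ∈ S, s a, Finset.one_le_prod' fun a _ => (hs a).1, fun a ha => ?_⟩
  obtain ⟨c, hc⟩ := Finset.dvd_prod_of_mem s ha
  rw [hc]
  exact pow_fix p (hs a).2 c

/-- **GOD**: at almost all places there is a good residue disc. -/
theorem exists_good {N : ℕ} (f : Fin N → MvPolynomial (Fin N) (AlgebraicClosure ℚ))
    (hf : jac f ≠ 0) (b : MvPolynomial (Fin N) (AlgebraicClosure ℚ)) (hb : b ≠ 0) :
    ∃ M : ℕ, ∀ p : Nat.Primes, M < p →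
      ∃ (f₀ : Fin N → MvPolynomial (Fin N) (O p)) (b₀ : MvPolynomial (Fin N) (O p))
        (a : Fin N → O p), (fun i => map (O p).subtype (f₀ i)) = f ∧
        map (O p).subtype b₀ = b ∧
        ∀ n, v p ((eval ((pmap f₀)^[n] a) b₀ : O p) : AlgebraicClosure ℚ) = 1 ∧
          v p ((eval ((pmap f₀)^[n] a) (jac f₀) : O p) : AlgebraicClosure ℚ) = 1 := by
  classical
  obtain ⟨M₁, h₁⟩ := exists_bound_lift (b * jac f)
  obtain ⟨M₂, h₂⟩ := exists_bound_system f
  obtain ⟨M₃, h₃⟩ := exists_bound_lift b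
  refine ⟨max M₁ (max M₂ M₃), fun p hp => ?_⟩
  obtain ⟨c₀, hc₀, hc₀'⟩ := h₁ p (lt_of_le_of_lt (le_max_left _ _) hp)
  obtain ⟨f₀, hf₀⟩ := h₂ p (lt_of_le_of_lt ((le_max_left _ _).trans (le_max_right _ _)) hp)
  obtain ⟨b₀, hb₀, -⟩ := h₃ p (lt_of_le_of_lt ((le_max_right _ _).trans (le_max_right _ _)) hp)
  have hinj : Function.Injective (map (O p).subtype : MvPolynomial (Fin N) (O p) → _) :=
    map_injective _ (O p).subtype_injective
  have hc : c₀ = b₀ * jac f₀ := by
    apply hinj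
    rw [hc₀, map_mul, hb₀, ← jac_map, hf₀]
  have hcr := hc₀' (mul_ne_zero hb hf)
  rw [hc, map_mul, ← jac_map] at hcr
  have hcr' := mul_ne_zero_iff.mp hcr
  have : CharP (Res p) (p : ℕ) := charP_res p
  set fr : Fin N → MvPolynomial (Fin N) (Res p) := fun i => map (residue (O p)) (f₀ i) with hfr
  set cr : MvPolynomial (Fin N) (Res p) := map (residue (O p)) b₀ * jac fr with hcrdef
  -- the Frobenius power
  set S : Finset (Res p) := cr.support.image (fun u => coeff u cr) ∪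
    Finset.univ.biUnion (fun i => (fr i).support.image fun u => coeff u (fr i)) with hS
  obtain ⟨s, hs1, hs⟩ := exists_fix_finset p S
  set d : ℕ := Finset.univ.sup fun i => (fr i).totalDegree with hd
  set B : ℕ := max d (cr.totalDegree * d ^ N) with hB
  have hlarge : B < (p : ℕ) ^ (s * (B + 1)) := by
    calc B < B + 1 := Nat.lt_succ_self _
      _ ≤ s * (B + 1) := Nat.le_mul_of_pos_left _ hs1
      _ < (p : ℕ) ^ (s * (B + 1)) := Nat.lt_pow_self p.2.one_lt
  set m := s * (B + 1) with hm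
  have hfixS : ∀ a ∈ S, ∀ k, a ^ ((p : ℕ) ^ (m * k)) = a := by
    intro a ha k
    exact pow_fix p (pow_fix p (hs a ha) (B + 1)) k
  have hfixc : ∀ k u, coeff u cr ^ ((p : ℕ) ^ (m * k)) = coeff u cr := by
    intro k u
    by_cases hu : u ∈ cr.support
    · exact hfixS _ (Finset.mem_union_left _ (Finset.mem_image_of_mem _ hu)) k
    · rw [notMem_support_iff.mp hu, zero_pow (pow_ne_zero _ p.2.ne_zero)]
  have hfixf : ∀ k i u, coeff u (fr i) ^ ((p : ℕ) ^ (m * k)) = coeff u (fr i) := by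
    intro k i u
    by_cases hu : u ∈ (fr i).support
    · exact hfixS _ (Finset.mem_union_right _ (Finset.mem_biUnion.mpr
        ⟨i, Finset.mem_univ i, Finset.mem_image_of_mem (fun u => coeff u (fr i)) hu⟩)) k
    · rw [notMem_support_iff.mp hu, zero_pow (pow_ne_zero _ p.2.ne_zero)]
  obtain ⟨x, hx1, hx2⟩ := exists_frob_point (p : ℕ) fr cr hcr'.2 hcr (d := d) (m := m)
    (fun i => Finset.le_sup (f := fun i => (fr i).totalDegree) (Finset.mem_univ i))
    (lt_of_le_of_lt (le_max_left _ _) hlarge) (lt_of_le_of_lt (le_max_right _ _) hlarge)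
  choose a ha using fun i => residue_surjective p (x i)
  refine ⟨f₀, b₀, a, hf₀, hb₀, ?_⟩
  have horb : ∀ n, (pmap fr)^[n] x = fun i => x i ^ ((p : ℕ) ^ (m * n)) := by
    intro n
    induction n with
    | zero => ext i; simp
    | succ n ih =>
      rw [Function.iterate_succ_apply', ih]
      ext i
      rw [pmap, eval_pow_of_fixed (p : ℕ) (m * n) (fr i) (hfixf n i) x, hx1, ← pow_mul, ← pow_add]
      congr 2
      ring
  have hval : ∀ n, eval ((pmap fr)^[n] x) cr ≠ 0 := by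
    intro n
    rw [horb, eval_pow_of_fixed (p : ℕ) (m * n) cr (hfixc n) x]
    exact pow_ne_zero _ hx2
  intro n
  have hxa : x = fun i => residue (O p) (a i) := funext fun i => (ha i).symm
  have h5 : (pmap fr)^[n] x = fun i => residue (O p) ((pmap f₀)^[n] a i) := by
    rw [hxa]
    exact pmap_iterate_map (residue (O p)) f₀ a n
  have h6 := hval n
  rw [h5, hcrdef, map_mul, hfr, jac_map] at h6
  have h7 : ∀ g : MvPolynomial (Fin N) (O p),
      eval (fun i => residue (O p) ((pmap f₀)^[n] a i)) (map (residue (O p)) g) =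
        residue (O p) (eval ((pmap f₀)^[n] a) g) := by
    intro g
    rw [eval_map, eval₂_comp]
    rfl
  rw [h7, h7] at h6
  exact ⟨(residue_ne_zero p).mp (left_ne_zero_of_mul h6),
    (residue_ne_zero p).mp (right_ne_zero_of_mul h6)⟩

end Pool.Agent.H8.HZ
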