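import Mathlib

/-!
# Polynomial maps with non-zero jacobian are dominant
-/

open MvPolynomial

namespace Pool.Agent.H8.HZ

/-- the jacobian matrix -/
noncomputable def jm {R : Type*} [CommRing R] {N : ℕ} (f : Fin N → MvPolynomial (Fin N) R) :
    Matrix (Fin N) (Fin N) (MvPolynomial (Fin N) R) := Matrix.of fun i j => pderiv j (f i)

/-- the jacobian -/
noncomputable def jac {R : Type*} [CommRing R] {N : ℕ} (f : Fin N → MvPolynomial (Fin N) R) :
    MvPolynomial (Fin N) R := (jm f).det

/-- the chain rule -/
theorem pderiv_aeval {R : Type*} [CommRing R] {N M : ℕ} (f : Fin N → MvPolynomial (Fin M) R)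
    (h : MvPolynomial (Fin N) R) (j : Fin M) :
    pderiv j (aeval f h) = ∑ i, aeval f (pderiv i h) * pderiv j (f i) := by
  induction h using MvPolynomial.induction_on with
  | C a => simp
  | add a b ha hb =>
    simp only [map_add, ha, hb, add_mul, Finset.sum_add_distrib]
  | mul_X a i ha =>
    rw [map_mul, aeval_X, pderiv_mul, ha, Finset.sum_mul]
    have h1 : ∀ k, aeval f (pderiv k (a * X i)) * pderiv j (f k) =
        aeval f (pderiv k a) * pderiv j (f k) * f i +
          (if k = i then aeval f a * pderiv j (f i) else 0) := by
      intro k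
      rw [pderiv_mul, map_add, map_mul, map_mul, aeval_X]
      by_cases hk : k = i
      · subst hk
        rw [pderiv_X_self, map_one, if_pos rfl]
        ring
      · rw [pderiv_X_of_ne (Ne.symm hk), map_zero, if_neg hk]
        ring
    simp only [h1, Finset.sum_add_distrib, Finset.sum_ite_eq', Finset.mem_univ, if_true]

theorem jac_map {R S : Type*} [CommRing R] [CommRing S] (φ : R →+* S) {N : ℕ}
    (f : Fin N → MvPolynomial (Fin N) R) :
    jac (fun i => map φ (f i)) = map φ (jac f) := by
  rw [jac, jac, RingHom.map_det]
  congr 1
  ext i j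
  simp only [jm, Matrix.of_apply, RingHom.mapMatrix_apply, Matrix.map_apply, pderiv_map]

theorem totalDegree_pow_eq {R : Type*} [CommRing R] [IsDomain R] {N : ℕ}
    {g : MvPolynomial (Fin N) R} (hg : g ≠ 0) (n : ℕ) :
    (g ^ n).totalDegree = n * g.totalDegree := by
  induction n with
  | zero => rw [pow_zero, totalDegree_one, zero_mul]
  | succ n ih =>
    rw [pow_succ, totalDegree_mul_of_isDomain (pow_ne_zero n hg) hg, ih, Nat.succ_mul]

/-- **INJ**, characteristic `p`. -/
theorem inj_char_p {κ : Type*} [Field κ] (p : ℕ) [hp : Fact p.Prime] [CharP κ p] [PerfectRing κ p]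
    {N : ℕ} (f : Fin N → MvPolynomial (Fin N) κ) (hf : jac f ≠ 0)
    (h : MvPolynomial (Fin N) κ) (hh : aeval f h = 0) : h = 0 := by
  classical
  induction hn : h.totalDegree using Nat.strong_induction_on generalizing h with
  | _ n ih =>
    by_cases h0 : h.totalDegree = 0
    · rw [totalDegree_eq_zero_iff_eq_C] at h0
      rw [h0] at hh ⊢
      rw [aeval_C, algebraMap_eq, C_eq_zero] at hh
      rw [hh, C_0]
    have h1 : ∀ i, aeval f (pderiv i h) = 0 := by
      have h2 : Matrix.vecMul (fun i => aeval f (pderiv i h)) (jm f) = 0 := by
        ext1 j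
        have h3 := pderiv_aeval f h j
        rw [hh, map_zero] at h3
        rw [Matrix.vecMul, dotProduct, Pi.zero_apply, h3]
        rfl
      have h4 := Matrix.eq_zero_of_vecMul_eq_zero hf h2
      exact fun i => congrFun h4 i
    have h2 : ∀ i, pderiv i h = 0 := by
      intro i
      by_contra hne
      have hlt : (pderiv i h).totalDegree < h.totalDegree := by
        have h3 : ∀ m, m ∈ (pderiv i h).support → m.degree + 1 ≤ h.totalDegree := by
          intro m hm
          rw [mem_support_iff, coeff_pderiv] at hm
          have h4 : coeff (m + Finsupp.single i 1) h ≠ 0 := by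
            intro h5
            rw [h5, zero_mul] at hm
            exact hm rfl
          have h5 := le_totalDegree (mem_support_iff.mpr h4)
          have h6 : ((m + Finsupp.single i 1).sum fun _ e => e) =
              (m + Finsupp.single i 1).degree := by
            rw [Finsupp.degree_apply]; rfl
          rw [h6, map_add, Finsupp.degree_single] at h5
          exact h5
        rw [totalDegree]
        rw [Finset.sup_lt_iff (by rw [Nat.bot_eq_zero]; omega)]
        intro m hm
        have h7 := h3 m hm
        have h6 : (m.sum fun _ e => e) = m.degree := by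
          rw [Finsupp.degree_apply]; rfl
        rw [h6]
        omega
      exact hne (ih _ (by omega) (pderiv i h) (h1 i) rfl)
    have h3 : ∀ m : Fin N →₀ ℕ, coeff m h ≠ 0 → ∀ i, p ∣ m i := by
      intro m hm i
      rcases Nat.eq_zero_or_pos (m i) with h4 | h4
      · rw [h4]; exact dvd_zero p
      have h5 : m - Finsupp.single i 1 + Finsupp.single i 1 = m := by
        apply tsub_add_cancel_of_le
        rw [Finsupp.single_le_iff]
        omega
      have h6 := congrArg (coeff (m - Finsupp.single i 1)) (h2 i)
      rw [coeff_pderiv, coeff_zero, h5] at h6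
      rcases mul_eq_zero.mp h6 with h7 | h7
      · exact absurd h7 hm
      · have h8 : ((m i : ℕ) : κ) = 0 := by
          have h9 : (m - Finsupp.single i 1 : Fin N →₀ ℕ) i + 1 = m i := by
            rw [Finsupp.tsub_apply, Finsupp.single_eq_same]; omega
          rw [← h9]; push_cast; exact h7
        exact (CharP.cast_eq_zero_iff κ p (m i)).mp h8
    -- `h` is a `p`-th power
    set g : MvPolynomial (Fin N) κ := ∑ m ∈ h.support,
      monomial (m.mapRange (· / p) (Nat.zero_div p)) ((frobeniusEquiv κ p).symm (coeff m h)) with hg
    have h4 : g ^ p = h := by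
      rw [hg, sum_pow_char]
      conv_rhs => rw [← support_sum_monomial_coeff h]
      apply Finset.sum_congr rfl
      intro m hm
      have h5 : p • (m.mapRange (· / p) (Nat.zero_div p)) = m := by
        ext i
        rw [Finsupp.smul_apply, Finsupp.mapRange_apply, smul_eq_mul]
        exact Nat.mul_div_cancel' (h3 m (mem_support_iff.mp hm) i)
      rw [monomial_pow, h5, frobeniusEquiv_symm_pow_p]
    have h5 : aeval f g = 0 := by
      have h6 : (aeval f g) ^ p = 0 := by rw [← map_pow, h4, hh]
      exact pow_eq_zero_iff (hp.out.ne_zero) |>.mp h6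
    have hg0 : g ≠ 0 := by
      intro h6
      rw [h6, zero_pow hp.out.ne_zero] at h4
      rw [← h4, totalDegree_zero] at h0
      exact h0 rfl
    have h6 : h.totalDegree = p * g.totalDegree := by
      rw [← h4, totalDegree_pow_eq hg0]
    have h7 : g.totalDegree < n := by
      have := hp.out.two_le
      rcases Nat.eq_zero_or_pos g.totalDegree with h8 | h8
      · omega
      · nlinarith
    exact absurd (ih _ h7 g h5 rfl) hg0

end Pool.Agent.H8.HZ
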