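import Mathlib

/-!
# The algebra `κ[x] / (x_i ^ Q - f_i)` with `Q > deg f`
-/

open MvPolynomial

namespace Pool.Agent.H8.HZ

section fba

variable {κ : Type*} [CommRing κ] {N : ℕ}

/-- all monomials of `g` have degree less than `d` -/
def Lo (d : ℕ) (g : MvPolynomial (Fin N) κ) : Prop := ∀ m : Fin N →₀ ℕ, d ≤ m.degree → coeff m g = 0

theorem Lo.zero (d : ℕ) : Lo d (0 : MvPolynomial (Fin N) κ) := fun m _ => coeff_zero m

theorem Lo.add {d : ℕ} {a b : MvPolynomial (Fin N) κ} (ha : Lo d a) (hb : Lo d b) :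
    Lo d (a + b) := fun m hm => by rw [coeff_add, ha m hm, hb m hm, add_zero]

theorem Lo.neg {d : ℕ} {a : MvPolynomial (Fin N) κ} (ha : Lo d a) :
    Lo d (-a) := fun m hm => by rw [coeff_neg, ha m hm, neg_zero]

theorem Lo.sub {d : ℕ} {a b : MvPolynomial (Fin N) κ} (ha : Lo d a) (hb : Lo d b) :
    Lo d (a - b) := by rw [sub_eq_add_neg]; exact ha.add hb.neg

theorem Lo.mono {d e : ℕ} (h : d ≤ e) {a : MvPolynomial (Fin N) κ} (ha : Lo d a) : Lo e a :=
  fun m hm => ha m (h.trans hm)

theorem Lo.sum {ι : Type*} {d : ℕ} (s : Finset ι) {a : ι → MvPolynomial (Fin N) κ}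
    (ha : ∀ i ∈ s, Lo d (a i)) : Lo d (∑ i ∈ s, a i) := fun m hm => by
  rw [coeff_sum]
  exact Finset.sum_eq_zero fun i hi => ha i hi m hm

theorem Lo.mul {d e : ℕ} {a b : MvPolynomial (Fin N) κ} (ha : Lo d a) (hb : Lo (e + 1) b) :
    Lo (d + e) (a * b) := by
  classical
  intro m hm
  rw [coeff_mul]
  apply Finset.sum_eq_zero
  rintro ⟨u, w⟩ huw
  have huw' : u + w = m := Finset.HasAntidiagonal.mem_antidiagonal.mp huw
  simp only
  subst huw'
  rw [map_add] at hm
  rcases Nat.lt_or_ge u.degree d with h | h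
  · rw [hb w (by omega), mul_zero]
  · rw [ha u h, zero_mul]

theorem Lo.smul {d : ℕ} {a : MvPolynomial (Fin N) κ} (ha : Lo d a) (c : κ) :
    Lo d (c • a) := fun m hm => by rw [coeff_smul, ha m hm, smul_zero]

theorem Lo.of_totalDegree {d : ℕ} {a : MvPolynomial (Fin N) κ} (ha : a.totalDegree < d) :
    Lo d a := fun m hm => by
  by_contra h
  have h1 := le_totalDegree (mem_support_iff.mpr h)
  have h2 : m.degree = m.sum fun _ e => e := by
    rw [Finsupp.degree_apply]; rfl
  omega

theorem Lo.monomial {m : Fin N →₀ ℕ} {d : ℕ} (h : m.degree < d) (c : κ) :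
    Lo d (MvPolynomial.monomial m c) := fun m' hm' => by
  classical
  rw [coeff_monomial, if_neg]
  rintro rfl
  omega

theorem exists_lo (a : MvPolynomial (Fin N) κ) : ∃ d, Lo d a :=
  ⟨a.totalDegree + 1, Lo.of_totalDegree (Nat.lt_succ_self _)⟩

/-- `A` is `x ^ u` plus terms of smaller degree -/
def Near (u : Fin N →₀ ℕ) (A : MvPolynomial (Fin N) κ) : Prop := Lo u.degree (A - monomial u 1)

theorem Near.one : Near (0 : Fin N →₀ ℕ) (1 : MvPolynomial (Fin N) κ) := by
  have h : (1 : MvPolynomial (Fin N) κ) - monomial 0 1 = 0 := by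
    rw [monomial_zero', C_1, sub_self]
  rw [Near, h]
  exact Lo.zero _

theorem Near.self (u : Fin N →₀ ℕ) : Near u (monomial u (1 : κ)) := by
  rw [Near, sub_self]
  exact Lo.zero _

theorem Near.mul {u w : Fin N →₀ ℕ} {A B : MvPolynomial (Fin N) κ} (hA : Near u A)
    (hB : Near w B) : Near (u + w) (A * B) := by
  have h : A * B - monomial (u + w) 1 =
      (A - monomial u 1) * (B - monomial w 1) + ((A - monomial u 1) * monomial w 1 +
        (B - monomial w 1) * monomial u 1) := by
    have h1 : (monomial (u + w) (1 : κ)) = monomial u 1 * monomial w 1 := by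
      rw [monomial_mul, mul_one]
    rw [h1]; ring
  rw [Near, h, map_add]
  refine Lo.add ?_ (Lo.add ?_ ?_)
  · exact Lo.mul hA (hB.mono (Nat.le_succ _))
  · exact Lo.mul hA (Lo.monomial (Nat.lt_succ_self _) 1)
  · rw [add_comm]
    exact Lo.mul hB (Lo.monomial (Nat.lt_succ_self _) 1)

theorem Near.pow {u : Fin N →₀ ℕ} {A : MvPolynomial (Fin N) κ} (hA : Near u A) (n : ℕ) :
    Near (n • u) (A ^ n) := by
  induction n with
  | zero => simpa using Near.one
  | succ n ih => rw [pow_succ, succ_nsmul]; exact ih.mul hA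

theorem Near.prod {ι : Type*} (s : Finset ι) {u : ι → Fin N →₀ ℕ}
    {A : ι → MvPolynomial (Fin N) κ} (hA : ∀ i ∈ s, Near (u i) (A i)) :
    Near (∑ i ∈ s, u i) (∏ i ∈ s, A i) := by
  classical
  induction s using Finset.induction_on with
  | empty => simpa using Near.one
  | insert i s hi ih =>
    rw [Finset.sum_insert hi, Finset.prod_insert hi]
    exact (hA i (Finset.mem_insert_self i s)).mul
      (ih fun j hj => hA j (Finset.mem_insert_of_mem hj))

/-- the remainders of the exponents -/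
noncomputable def rd (Q : ℕ) (m : Fin N →₀ ℕ) : Fin N →₀ ℕ :=
  m.mapRange (· % Q) (Nat.zero_mod Q)

theorem rd_apply (Q : ℕ) (m : Fin N →₀ ℕ) (i : Fin N) : rd Q m i = m i % Q := by
  rw [rd, Finsupp.mapRange_apply]

variable (f : Fin N → MvPolynomial (Fin N) κ) (Q : ℕ)

/-- the image of a monomial -/
noncomputable def Lm (m : Fin N →₀ ℕ) : MvPolynomial (Fin N) κ :=
  (∏ i, (X i ^ Q - f i) ^ (m i / Q)) * monomial (rd Q m) 1

/-- the map `x ^ (Q β + α) ↦ (x ^ Q - f) ^ β x ^ α` -/
noncomputable def L : MvPolynomial (Fin N) κ →ₗ[κ] MvPolynomial (Fin N) κ :=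
  (basisMonomials (Fin N) κ).constr κ (Lm f Q)

theorem L_monomial (m : Fin N →₀ ℕ) : L f Q (monomial m 1) = Lm f Q m := by
  have h := (basisMonomials (Fin N) κ).constr_basis κ (Lm f Q) m
  rwa [coe_basisMonomials] at h

variable {f Q}

theorem near_Lm (hQ : ∀ i, Lo Q (f i)) (m : Fin N →₀ ℕ) : Near m (Lm f Q m) := by
  have h1 : ∀ i, Near (Finsupp.single i Q) (X i ^ Q - f i) := by
    intro i
    have h2 : X i ^ Q - f i - monomial (Finsupp.single i Q) 1 = - f i := by
      rw [X_pow_eq_monomial]; ring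
    rw [Near, h2, Finsupp.degree_single]
    exact (hQ i).neg
  have h2 := (Near.prod Finset.univ (fun i _ => (h1 i).pow (m i / Q))).mul
    (Near.self (κ := κ) (rd Q m))
  have h3 : ∑ i, (m i / Q) • Finsupp.single i Q + rd Q m = m := by
    ext j
    rw [Finsupp.add_apply, Finsupp.finsetSum_apply, rd_apply, Finset.sum_eq_single j]
    · rw [Finsupp.smul_apply, Finsupp.single_eq_same, smul_eq_mul]
      exact Nat.div_add_mod' (m j) Q
    · intro i _ hij
      rw [Finsupp.smul_apply, Finsupp.single_eq_of_ne (Ne.symm hij), smul_zero]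
    · intro h; exact absurd (Finset.mem_univ j) h
  rw [h3] at h2
  exact h2

theorem lo_L_sub (hQ : ∀ i, Lo Q (f i)) {d : ℕ} {g : MvPolynomial (Fin N) κ}
    (hg : Lo (d + 1) g) : Lo d (L f Q g - g) := by
  have h1 : L f Q g - g = ∑ m ∈ g.support, coeff m g • (Lm f Q m - monomial m 1) := by
    conv_lhs => rw [← support_sum_monomial_coeff g]
    rw [map_sum, ← Finset.sum_sub_distrib]
    apply Finset.sum_congr rfl
    intro m _
    have h2 : monomial m (coeff m g) = coeff m g • monomial m (1 : κ) := by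
      rw [smul_monomial, smul_eq_mul, mul_one]
    rw [h2, map_smul, L_monomial, smul_sub]
  rw [h1]
  apply Lo.sum
  intro m hm
  apply Lo.smul
  have h3 : m.degree ≤ d := by
    by_contra h
    exact (mem_support_iff.mp hm) (hg m (by omega))
  exact Lo.mono h3 (near_Lm hQ m)

theorem L_injective (hQ : ∀ i, Lo Q (f i)) {g : MvPolynomial (Fin N) κ} (hg : L f Q g = 0) :
    g = 0 := by
  have key : ∀ d, Lo d g → g = 0 := by
    intro d
    induction d with
    | zero =>
      intro h
      ext m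
      rw [coeff_zero]
      exact h m (Nat.zero_le _)
    | succ d ih =>
      intro h
      have h1 := lo_L_sub hQ h
      rw [hg, zero_sub] at h1
      have h2 := h1.neg
      rw [neg_neg] at h2
      exact ih h2
  obtain ⟨d, hd⟩ := exists_lo g
  exact key d hd

theorem L_surjective (hQ : ∀ i, Lo Q (f i)) (g : MvPolynomial (Fin N) κ) :
    ∃ G, L f Q G = g := by
  have key : ∀ d, ∀ g : MvPolynomial (Fin N) κ, Lo d g → ∃ G, L f Q G = g := by
    intro d
    induction d with
    | zero =>
      intro g h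
      refine ⟨0, ?_⟩
      rw [map_zero]
      ext m
      rw [coeff_zero]
      exact (h m (Nat.zero_le _)).symm
    | succ d ih =>
      intro g h
      obtain ⟨G, hG⟩ := ih _ (lo_L_sub hQ h)
      exact ⟨g - G, by rw [map_sub, hG]; ring⟩
  obtain ⟨d, hd⟩ := exists_lo g
  exact key d g hd

theorem L_X_pow_mul (hQ0 : 0 < Q) (i : Fin N) (G : MvPolynomial (Fin N) κ) :
    L f Q (X i ^ Q * G) = (X i ^ Q - f i) * L f Q G := by
  classical
  induction G using MvPolynomial.induction_on' with
  | monomial m c =>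
    have h2 : monomial m c = c • monomial m (1 : κ) := by
      rw [smul_monomial, smul_eq_mul, mul_one]
    have h3 : X i ^ Q * monomial m c = c • monomial (Finsupp.single i Q + m) (1 : κ) := by
      rw [X_pow_eq_monomial, monomial_mul, smul_monomial, smul_eq_mul, mul_one, one_mul]
    rw [h3, h2, map_smul, map_smul, L_monomial, L_monomial, mul_smul_comm]
    congr 1
    have h4 : rd Q (Finsupp.single i Q + m) = rd Q m := by
      ext j
      rw [rd_apply, rd_apply, Finsupp.add_apply, Finsupp.single_apply]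
      split_ifs
      · rw [Nat.add_mod_left]
      · rw [zero_add]
    have h5 : (∏ j, (X j ^ Q - f j) ^ ((Finsupp.single i Q + m) j / Q)) =
        (X i ^ Q - f i) * ∏ j, (X j ^ Q - f j) ^ (m j / Q) := by
      rw [← Finset.mul_prod_erase Finset.univ _ (Finset.mem_univ i),
        ← Finset.mul_prod_erase Finset.univ (fun j => (X j ^ Q - f j) ^ (m j / Q))
          (Finset.mem_univ i), ← mul_assoc]
      congr 1
      · rw [Finsupp.add_apply, Finsupp.single_eq_same, Nat.add_div_left _ hQ0, pow_succ, mul_comm]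
      · apply Finset.prod_congr rfl
        intro j hj
        rw [Finsupp.add_apply, Finsupp.single_eq_of_ne (Finset.ne_of_mem_erase hj), zero_add]
    rw [Lm, Lm, h4, h5]
    ring
  | add a b ha hb => rw [mul_add, map_add, ha, hb, map_add, mul_add]

theorem L_of_lo {g : MvPolynomial (Fin N) κ} (hg : Lo Q g) : L f Q g = g := by
  conv_lhs => rw [← support_sum_monomial_coeff g]
  conv_rhs => rw [← support_sum_monomial_coeff g]
  rw [map_sum]
  apply Finset.sum_congr rfl
  intro m hm
  have h2 : monomial m (coeff m g) = coeff m g • monomial m (1 : κ) := by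
    rw [smul_monomial, smul_eq_mul, mul_one]
  rw [h2, map_smul, L_monomial]
  congr 1
  have h3 : m.degree < Q := by
    by_contra h
    exact (mem_support_iff.mp hm) (hg m (by omega))
  have h4 : ∀ i, m i < Q := fun i => lt_of_le_of_lt (Finsupp.le_degree i m) h3
  have h5 : rd Q m = m := by
    ext i
    rw [rd_apply, Nat.mod_eq_of_lt (h4 i)]
  rw [Lm, h5]
  rw [Finset.prod_eq_one, one_mul]
  intro i _
  rw [Nat.div_eq_of_lt (h4 i), pow_zero]

/-- **FBA**: a polynomial of degree less than `Q` in the ideal of the `x_i ^ Q - f_i` is zero. -/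
theorem eq_zero_of_mem {h : MvPolynomial (Fin N) κ} (hQ : ∀ i, Lo Q (f i)) (hh : Lo Q h)
    (hI : h ∈ Ideal.span (Set.range fun i => X i ^ Q - f i)) : h = 0 := by
  classical
  rcases Nat.eq_zero_or_pos Q with h0 | h0
  · subst h0
    ext m
    rw [coeff_zero]
    exact hh m (Nat.zero_le _)
  obtain ⟨c, hc⟩ := Ideal.mem_span_range_iff_exists_fun.mp hI
  choose G hG using fun i => L_surjective hQ (c i)
  have h1 : L f Q (∑ i, X i ^ Q * G i) = h := by
    rw [map_sum, ← hc]
    apply Finset.sum_congr rfl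
    intro i _
    rw [L_X_pow_mul h0, hG, mul_comm]
  have h2 : h = ∑ i, X i ^ Q * G i := by
    have h3 : L f Q (h - ∑ i, X i ^ Q * G i) = 0 := by
      rw [map_sub, h1, L_of_lo hh, sub_self]
    exact sub_eq_zero.mp (L_injective hQ h3)
  ext m
  rw [coeff_zero]
  rcases Nat.lt_or_ge m.degree Q with hm | hm
  · rw [h2, coeff_sum]
    apply Finset.sum_eq_zero
    intro i _
    rw [X_pow_eq_monomial, coeff_monomial_mul', if_neg]
    rw [Finsupp.single_le_iff]
    have := Finsupp.le_degree i m
    omega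
  · exact hh m hm

end fba

section dim

variable {κ : Type*} [Field κ] {N : ℕ} {f : Fin N → MvPolynomial (Fin N) κ} {Q : ℕ}

/-- the reduced exponents span the quotient -/
theorem span_quotient (hQ : ∀ i, Lo Q (f i)) (hQ0 : 0 < Q) :
    Submodule.span κ (Set.range fun α : Fin N → Fin Q =>
      (Ideal.Quotient.mkₐ κ (Ideal.span (Set.range fun i => X i ^ Q - f i)))
        (monomial (Finsupp.equivFunOnFinite.symm fun i => (α i : ℕ)) 1)) = ⊤ := by
  rw [eq_top_iff]
  rintro a -
  obtain ⟨g, rfl⟩ := Ideal.Quotient.mkₐ_surjective κ _ a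
  obtain ⟨G, rfl⟩ := L_surjective hQ g
  have hG : L f Q G = ∑ m ∈ G.support, L f Q (monomial m (coeff m G)) := by
    conv_lhs => rw [← support_sum_monomial_coeff G]
    rw [map_sum]
  rw [hG, map_sum]
  apply Submodule.sum_mem
  intro m _
  have h2 : monomial m (coeff m G) = coeff m G • monomial m (1 : κ) := by
    rw [smul_monomial, smul_eq_mul, mul_one]
  rw [h2, map_smul, map_smul, L_monomial]
  apply Submodule.smul_mem
  by_cases hm : ∀ i, m i < Q
  · apply Submodule.subset_span
    refine ⟨fun i => ⟨m i, hm i⟩, ?_⟩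
    have h5 : rd Q m = m := by
      ext i
      rw [rd_apply, Nat.mod_eq_of_lt (hm i)]
    have h6 : Lm f Q m = monomial m 1 := by
      rw [Lm, h5, Finset.prod_eq_one, one_mul]
      intro i _
      rw [Nat.div_eq_of_lt (hm i), pow_zero]
    rw [h6]
    have h7 : (Finsupp.equivFunOnFinite.symm fun i => m i) = m :=
      Finsupp.equivFunOnFinite_symm_coe m
    change (Ideal.Quotient.mkₐ κ (Ideal.span (Set.range fun i => X i ^ Q - f i)))
      (monomial (Finsupp.equivFunOnFinite.symm fun i => m i) 1) = _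
    rw [h7]
  · push Not at hm
    obtain ⟨i, hi⟩ := hm
    have h7 : (Ideal.Quotient.mkₐ κ (Ideal.span (Set.range fun i => X i ^ Q - f i)))
        (Lm f Q m) = 0 := by
      rw [Ideal.Quotient.mkₐ_eq_mk, Ideal.Quotient.eq_zero_iff_mem, Lm]
      apply Ideal.mul_mem_right
      rw [← Finset.mul_prod_erase Finset.univ _ (Finset.mem_univ i)]
      apply Ideal.mul_mem_right
      have h8 : m i / Q ≠ 0 := by
        have := Nat.div_pos hi hQ0
        omega
      have h9 : X i ^ Q - f i ∈ Ideal.span (Set.range fun i => X i ^ Q - f i) :=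
        Ideal.subset_span ⟨i, rfl⟩
      exact Ideal.pow_mem_of_mem _ h9 _ (Nat.pos_of_ne_zero h8)
    rw [h7]
    exact Submodule.zero_mem _

/-- **NIL**: a polynomial which is nilpotent modulo the ideal has its `Q ^ N`-th power in it. -/
theorem pow_mem_of_pow_mem (hQ : ∀ i, Lo Q (f i)) (hQ0 : 0 < Q) {b : MvPolynomial (Fin N) κ}
    {M : ℕ} (hb : b ^ M ∈ Ideal.span (Set.range fun i => X i ^ Q - f i)) :
    b ^ (Q ^ N) ∈ Ideal.span (Set.range fun i => X i ^ Q - f i) := by
  set I := Ideal.span (Set.range fun i => X i ^ Q - f i) with hI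
  have hspan := span_quotient (κ := κ) hQ hQ0
  rw [← hI] at hspan
  have hfin : Module.Finite κ (MvPolynomial (Fin N) κ ⧸ I) := by
    refine ⟨?_⟩
    rw [← hspan]
    exact Submodule.fg_span (Set.finite_range _)
  have hrank : Module.finrank κ (MvPolynomial (Fin N) κ ⧸ I) ≤ Q ^ N := by
    have h1 := finrank_range_le_card (R := κ) (fun α : Fin N → Fin Q =>
      (Ideal.Quotient.mkₐ κ I) (monomial (Finsupp.equivFunOnFinite.symm fun i => (α i : ℕ)) 1))
    rw [Set.finrank, hspan, finrank_top] at h1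
    simpa using h1
  set a : MvPolynomial (Fin N) κ ⧸ I := Ideal.Quotient.mkₐ κ I b with ha
  have h1 : a ^ M = 0 := by
    rw [ha, ← map_pow, Ideal.Quotient.mkₐ_eq_mk, Ideal.Quotient.eq_zero_iff_mem]
    exact hb
  have h2 : IsNilpotent (Algebra.lmul κ (MvPolynomial (Fin N) κ ⧸ I) a) := by
    refine ⟨M, ?_⟩
    rw [← map_pow, h1, map_zero]
  have h3 := IsNilpotent.charpoly_eq_X_pow_finrank h2
  have h4 := LinearMap.aeval_self_charpoly (Algebra.lmul κ (MvPolynomial (Fin N) κ ⧸ I) a)
  rw [h3, Polynomial.aeval_X_pow, ← map_pow] at h4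
  have h5 : a ^ Module.finrank κ (MvPolynomial (Fin N) κ ⧸ I) = 0 := by
    have := LinearMap.congr_fun h4 1
    simpa using this
  have h6 : a ^ (Q ^ N) = 0 := pow_eq_zero_of_le hrank h5
  rw [ha, ← map_pow, Ideal.Quotient.mkₐ_eq_mk, Ideal.Quotient.eq_zero_iff_mem] at h6
  exact h6

end dim

end Pool.Agent.H8.HZ
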