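import Pool.Agent.H8.HZ.ITR
import Pool.Agent.H12.ZD.Grow

/-!
# The flow near a good residue disc
-/

open MvPolynomial IsLocalRing Pool.Agent.H12.ZD

namespace Pool.Agent.H8.HZ

/-- a number field containing given algebraic numbers -/
theorem exists_number_field (S : Finset (AlgebraicClosure ℚ)) :
    ∃ K : IntermediateField ℚ (AlgebraicClosure ℚ), FiniteDimensional ℚ K ∧ ∀ x ∈ S, x ∈ K := by
  refine ⟨IntermediateField.adjoin ℚ (S : Set (AlgebraicClosure ℚ)),
    IntermediateField.finiteDimensional_adjoin fun x _ =>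
      (Algebra.IsAlgebraic.isAlgebraic (R := ℚ) x).isIntegral, ?_⟩
  exact fun x hx => IntermediateField.subset_adjoin ℚ _ hx

/-- the orbit and the jacobian matrices of the iterates lie over a number field -/
theorem exists_field_itr {N : ℕ} (f : Fin N → MvPolynomial (Fin N) (AlgebraicClosure ℚ))
    (a : Fin N → AlgebraicClosure ℚ) :
    ∃ K : IntermediateField ℚ (AlgebraicClosure ℚ), FiniteDimensional ℚ K ∧
      (∀ n i, (pmap f)^[n] a i ∈ K) ∧ ∀ n i j, Dm (itr f n) a i j ∈ K := by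
  classical
  obtain ⟨K, hfin, hK⟩ := exists_number_field
    ((Finset.univ.biUnion fun i => (f i).coeffs) ∪ Finset.univ.image a)
  refine ⟨K, hfin, ?_⟩
  have h1 : ∀ i, f i ∈ Set.range (map (algebraMap K (AlgebraicClosure ℚ))) := by
    intro i
    rw [mem_range_map_iff_coeffs_subset]
    intro x hx
    have h2 : x ∈ K := hK x (Finset.mem_union_left _ (Finset.mem_biUnion.mpr
      ⟨i, Finset.mem_univ i, hx⟩))
    exact ⟨⟨x, h2⟩, rfl⟩
  choose fK hfK using h1
  have h2 : ∀ i, a i ∈ K := fun i =>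
    hK _ (Finset.mem_union_right _ (Finset.mem_image_of_mem a (Finset.mem_univ i)))
  set aK : Fin N → K := fun i => ⟨a i, h2 i⟩ with haK
  have hf : f = fun i => map (algebraMap K (AlgebraicClosure ℚ)) (fK i) :=
    funext fun i => (hfK i).symm
  have ha : a = fun i => algebraMap K (AlgebraicClosure ℚ) (aK i) := rfl
  refine ⟨fun n i => ?_, fun n i j => ?_⟩
  · rw [hf, ha, pmap_iterate_map]
    exact ((pmap fK)^[n] aK i).2
  · rw [hf, ha, itr_map, Dm_map]
    exact (Dm (itr fK n) aK i j).2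

/-- over the valuation ring: small means divisible -/
theorem dvd_of_v_le (p : Nat.Primes) {x y : O p} (hy : (y : AlgebraicClosure ℚ) ≠ 0)
    (h : v p (x : AlgebraicClosure ℚ) ≤ v p (y : AlgebraicClosure ℚ)) : ∃ c : O p, x = y * c := by
  have hy' := (v_pos p).mpr hy
  refine ⟨⟨(x : AlgebraicClosure ℚ) / y, ?_⟩, ?_⟩
  · rw [mem_O, div_eq_mul_inv, v_mul, v_inv, ← div_eq_mul_inv]
    exact (div_le_one hy').mpr h
  · apply Subtype.ext
    change (x : AlgebraicClosure ℚ) = (y : AlgebraicClosure ℚ) * ((x : AlgebraicClosure ℚ) / y)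
    field_simp

theorem exists_recurrent {N : ℕ} (p : Nat.Primes) (f₀ : Fin N → MvPolynomial (Fin N) (O p))
    (a : Fin N → O p)
    (hj : ∀ n, v p ((eval ((pmap f₀)^[n] a) (jac f₀) : O p) : AlgebraicClosure ℚ) = 1) :
    ∃ (i k : ℕ), 1 ≤ k ∧ (∀ l, ∃ c : O p, (pmap f₀)^[k] ((pmap f₀)^[i] a) l =
        (pmap f₀)^[i] a l + ((p : ℕ) : O p) ^ 3 * c) ∧
      ∀ l m, ∃ c : O p, Dm (itr f₀ k) ((pmap f₀)^[i] a) l m =
        (1 : Matrix (Fin N) (Fin N) (O p)) l m + ((p : ℕ) : O p) ^ 3 * c := by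
  classical
  set f : Fin N → MvPolynomial (Fin N) (AlgebraicClosure ℚ) :=
    fun i => map (O p).subtype (f₀ i) with hf
  have hpc : (((p : ℕ) : O p) : AlgebraicClosure ℚ) = ((p : ℕ) : AlgebraicClosure ℚ) :=
    map_natCast (O p).subtype (p : ℕ)
  have hp0 : ((((p : ℕ) : O p) ^ 3 : O p) : AlgebraicClosure ℚ) ≠ 0 := by
    have h1 : ((((p : ℕ) : O p) ^ 3 : O p) : AlgebraicClosure ℚ) =
        (((p : ℕ) : O p) : AlgebraicClosure ℚ) ^ 3 := map_pow (O p).subtype _ 3
    rw [h1, hpc]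
    apply pow_ne_zero
    exact_mod_cast p.2.ne_zero
  obtain ⟨K, hfin, hK1, hK2⟩ := exists_field_itr f (fun i => (a i : AlgebraicClosure ℚ))
  have h1 : ∀ n i, ((pmap f₀)^[n] a i : AlgebraicClosure ℚ) =
      (pmap f)^[n] (fun i => (a i : AlgebraicClosure ℚ)) i := by
    intro n i
    have := pmap_iterate_map (O p).subtype f₀ a n
    exact (congrFun this i).symm
  have h2 : ∀ n i j, ((Dm (itr f₀ n) a i j : O p) : AlgebraicClosure ℚ) =
      Dm (itr f n) (fun i => (a i : AlgebraicClosure ℚ)) i j := by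
    intro n i j
    have := Dm_map (O p).subtype (itr f₀ n) a i j
    rw [← itr_map] at this
    exact this.symm
  obtain ⟨i, j, hij, hclose⟩ := exists_close p (ι := Fin N ⊕ (Fin N × Fin N)) K
    (fun n => Sum.elim (fun l => ((pmap f₀)^[n] a l : AlgebraicClosure ℚ))
      (fun lm => ((Dm (itr f₀ n) a lm.1 lm.2 : O p) : AlgebraicClosure ℚ)))
    (by
      rintro n (l | ⟨l, m⟩)
      · rw [Sum.elim_inl, h1]; exact hK1 n l
      · rw [Sum.elim_inr, h2]; exact hK2 n l m)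
    (by
      rintro n (l | ⟨l, m⟩)
      · exact ((pmap f₀)^[n] a l).2
      · exact (Dm (itr f₀ n) a l m).2)
    ((v_pos p).mpr hp0)
  obtain ⟨k, rfl⟩ : ∃ k, j = k + i := ⟨j - i, by omega⟩
  refine ⟨i, k, by omega, ?_, ?_⟩
  · intro l
    have h3 := hclose (Sum.inl l)
    rw [Sum.elim_inl, Sum.elim_inl, v_sub_comm] at h3
    obtain ⟨c, hc⟩ := dvd_of_v_le p (x := (pmap f₀)^[k + i] a l - (pmap f₀)^[i] a l)
      (y := ((p : ℕ) : O p) ^ 3) hp0 h3.le
    refine ⟨c, ?_⟩
    rw [← hc, Function.iterate_add_apply, add_sub_cancel]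
  · -- the matrices
    have h3 : ∀ l m, ∃ c : O p, Dm (itr f₀ (k + i)) a l m - Dm (itr f₀ i) a l m =
        ((p : ℕ) : O p) ^ 3 * c := by
      intro l m
      have h4 := hclose (Sum.inr (l, m))
      rw [Sum.elim_inr, Sum.elim_inr, v_sub_comm] at h4
      exact dvd_of_v_le p (x := Dm (itr f₀ (k + i)) a l m - Dm (itr f₀ i) a l m)
        (y := ((p : ℕ) : O p) ^ 3) hp0 h4.le
    choose c hc using h3
    have hdet : ∀ n, IsUnit (Dm (itr f₀ n) a).det := by
      intro n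
      induction n with
      | zero => rw [itr, Dm_X, Matrix.det_one]; exact isUnit_one
      | succ n ih =>
        rw [Dm_itr_succ, Matrix.det_mul]
        apply IsUnit.mul _ ih
        rw [det_Dm, isUnit_O]
        exact hj n
    have h4 : Dm (itr f₀ k) ((pmap f₀)^[i] a) =
        1 + (((p : ℕ) : O p) ^ 3) • (Matrix.of c * (Dm (itr f₀ i) a)⁻¹) := by
      have h5 : Dm (itr f₀ (k + i)) a = Dm (itr f₀ i) a + (((p : ℕ) : O p) ^ 3) • Matrix.of c := by
        ext l m
        rw [Matrix.add_apply, Matrix.smul_apply, Matrix.of_apply, smul_eq_mul, ← hc,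
          add_sub_cancel]
      rw [Dm_itr_add] at h5
      have h6 : Dm (itr f₀ k) ((pmap f₀)^[i] a) * Dm (itr f₀ i) a * (Dm (itr f₀ i) a)⁻¹ =
          (Dm (itr f₀ i) a + (((p : ℕ) : O p) ^ 3) • Matrix.of c) * (Dm (itr f₀ i) a)⁻¹ := by
        rw [h5]
      rw [Matrix.mul_assoc, Matrix.mul_nonsing_inv _ (hdet i), mul_one, add_mul,
        Matrix.mul_nonsing_inv _ (hdet i), Matrix.smul_mul] at h6
      exact h6
    intro l m
    refine ⟨(Matrix.of c * (Dm (itr f₀ i) a)⁻¹) l m, ?_⟩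
    rw [h4, Matrix.add_apply, Matrix.smul_apply, smul_eq_mul]

section general

variable {R S : Type*} [CommRing R] [CommRing S] {N : ℕ}

theorem totalDegree_map_le (φ : R →+* S)
    (g : MvPolynomial (Fin N) R) : (map φ g).totalDegree ≤ g.totalDegree := by
  rw [totalDegree, totalDegree]
  exact Finset.sup_mono (support_map_subset φ g)

theorem flow_identity (g : Fin N → MvPolynomial (Fin N) R) (a : Fin N → R) (ϖ : R)
    (h1 : ∀ i, ∃ c : R, eval a (g i) = a i + ϖ ^ 3 * c)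
    (h2 : ∀ i j, ∃ c : R, Dm g a i j = (1 : Matrix (Fin N) (Fin N) R) i j + ϖ ^ 3 * c) :
    ∃ H : Fin N → MvPolynomial (Fin N) R, ∀ i,
      aeval (fun i => C (a i) + C (ϖ ^ 2) * X i) (g i) =
        C (a i) + C (ϖ ^ 2) * (X i + C ϖ * H i) := by
  classical
  choose c hc using h1
  choose e he using h2
  choose h hh using fun i => taylor a (ϖ ^ 2) (g i)
  refine ⟨fun i => C (c i) + C (ϖ ^ 2) * (∑ j, C (e i j) * X j) + C ϖ * h i, fun i => ?_⟩
  rw [hh i]
  have h2 : ∑ j, C (eval a (pderiv j (g i))) * X j =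
      X i + C (ϖ ^ 3) * ∑ j, C (e i j) * X j := by
    have h3 : ∀ j, C (eval a (pderiv j (g i))) * X j =
        C ((1 : Matrix (Fin N) (Fin N) R) i j) * X j + C (ϖ ^ 3) * (C (e i j) * X j) := by
      intro j
      have h4 : eval a (pderiv j (g i)) =
          (1 : Matrix (Fin N) (Fin N) R) i j + ϖ ^ 3 * e i j := he i j
      rw [h4, C_add, C_mul, add_mul, mul_assoc]
    have h5 : ∑ j, C ((1 : Matrix (Fin N) (Fin N) R) i j) * X j =
        (X i : MvPolynomial (Fin N) R) := by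
      rw [Finset.sum_eq_single i]
      · rw [Matrix.one_apply_eq, C_1, one_mul]
      · intro j _ hj
        rw [Matrix.one_apply_ne (Ne.symm hj), C_0, zero_mul]
      · intro h6
        exact absurd (Finset.mem_univ i) h6
    rw [Finset.sum_congr rfl fun j _ => h3 j, Finset.sum_add_distrib, h5, Finset.mul_sum]
  have h6 : ∀ (A x c L h t : MvPolynomial (Fin N) R),
      A + t ^ 3 * c + t ^ 2 * (x + t ^ 3 * L) + (t ^ 2) ^ 2 * h =
        A + t ^ 2 * (x + t * (c + t ^ 2 * L + t * h)) := by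
    intro A x c L h t
    ring
  rw [hc i, h2]
  have h7 := h6 (C (a i)) (X i) (C (c i)) (∑ j, C (e i j) * X j) (h i) (C ϖ)
  simp only [C_add, C_mul, C_pow]
  exact h7

theorem flow_map (φ : R →+* S) (g : Fin N → MvPolynomial (Fin N) R) (a : Fin N → R) (ϖ : R)
    (H : Fin N → MvPolynomial (Fin N) R)
    (hH : ∀ i, aeval (fun i => C (a i) + C (ϖ ^ 2) * X i) (g i) =
        C (a i) + C (ϖ ^ 2) * (X i + C ϖ * H i)) (i : Fin N) :
    aeval (fun i => C (φ (a i)) + C (φ ϖ ^ 2) * X i) (map φ (g i)) =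
      C (φ (a i)) + C (φ ϖ ^ 2) * map φ (X i + C ϖ * H i) := by
  have h1 := congrArg (map φ) (hH i)
  rw [map_aeval', map_add, map_mul (map φ) (C (ϖ ^ 2)), map_C, map_C, RingHom.map_pow φ] at h1
  rw [← h1]
  congr 2
  ext1 j
  rw [map_add, map_mul, map_C, map_C, map_X, RingHom.map_pow φ]

theorem flow_degree {F : Type*} [Field F] (φ : R →+* F) (g : Fin N → MvPolynomial (Fin N) R)
    (a : Fin N → R) (ϖ : R) (hϖ : φ ϖ ≠ 0) (H : Fin N → MvPolynomial (Fin N) R)
    (hH : ∀ i, aeval (fun i => C (a i) + C (ϖ ^ 2) * X i) (g i) =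
        C (a i) + C (ϖ ^ 2) * (X i + C ϖ * H i)) (i : Fin N) :
    (map φ (X i + C ϖ * H i)).totalDegree ≤ (map φ (g i)).totalDegree := by
  have hp0 : φ ϖ ^ 2 ≠ 0 := pow_ne_zero _ hϖ
  have h1 : map φ (X i + C ϖ * H i) = C ((φ ϖ ^ 2)⁻¹) *
      (aeval (fun i => C (φ (a i)) + C (φ ϖ ^ 2) * X i) (map φ (g i)) - C (φ (a i))) := by
    rw [flow_map φ g a ϖ H hH, add_sub_cancel_left, ← mul_assoc, ← C_mul, inv_mul_cancel₀ hp0,
      C_1, one_mul]
  rw [h1]
  refine (totalDegree_mul _ _).trans ?_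
  rw [totalDegree_C, zero_add]
  refine (totalDegree_sub_C_le _ _).trans ?_
  refine (totalDegree_aeval_le _ (d := 1) ?_ _).trans ?_
  · intro j
    refine (totalDegree_add _ _).trans (max_le ?_ ?_)
    · rw [totalDegree_C]; exact Nat.zero_le _
    · refine (totalDegree_mul _ _).trans ?_
      rw [totalDegree_C, totalDegree_X]
  · rw [mul_one]

theorem flow_eval (φ : R →+* S) (g : Fin N → MvPolynomial (Fin N) R) (a : Fin N → R) (ϖ : R)
    (H : Fin N → MvPolynomial (Fin N) R)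
    (hH : ∀ i, aeval (fun i => C (a i) + C (ϖ ^ 2) * X i) (g i) =
        C (a i) + C (ϖ ^ 2) * (X i + C ϖ * H i)) (z : Fin N → S) :
    pmap (fun i => map φ (g i)) (fun i => φ (a i) + φ ϖ ^ 2 * z i) =
      fun i => φ (a i) + φ ϖ ^ 2 * pmap (fun i => map φ (X i + C ϖ * H i)) z i := by
  ext i
  have h1 := congrArg (eval z) (flow_map φ g a ϖ H hH i)
  rw [eval_aeval] at h1
  have h2 : pmap (fun i => C (φ (a i)) + C (φ ϖ ^ 2) * X i) z =
      fun i => φ (a i) + φ ϖ ^ 2 * z i := by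
    ext j
    simp [pmap]
  rw [h2] at h1
  change eval _ (map φ (g i)) = _
  rw [h1, map_add, map_mul, eval_C, eval_C]
  rfl

end general

/-- points of a small disc have orbits close to each other -/
theorem orbit_close {N : ℕ} (p : Nat.Primes) (f₀ : Fin N → MvPolynomial (Fin N) (O p))
    (x y : Fin N → O p) (h : ∀ l, v p ((x l : AlgebraicClosure ℚ) - y l) < 1) (n : ℕ) :
    ∀ l, v p (((pmap f₀)^[n] x l : AlgebraicClosure ℚ) - (pmap f₀)^[n] y l) < 1 := by
  induction n with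
  | zero => exact h
  | succ n ih =>
    intro l
    rw [Function.iterate_succ_apply', Function.iterate_succ_apply']
    exact close_eval p (f₀ l) _ _ one_pos ih

theorem coe_natCast_O (p : Nat.Primes) (n : ℕ) :
    ((n : O p) : AlgebraicClosure ℚ) = (n : AlgebraicClosure ℚ) :=
  map_natCast (O p).subtype n

theorem disc_avoid {N : ℕ} (p : Nat.Primes) (f₀ : Fin N → MvPolynomial (Fin N) (O p))
    (b₀ : MvPolynomial (Fin N) (O p)) (a : Fin N → O p) (n : ℕ)
    (h : v p ((eval ((pmap f₀)^[n] a) b₀ : O p) : AlgebraicClosure ℚ) = 1) (z : Fin N → O p) :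
    eval ((pmap f₀)^[n] (fun i => a i + ((p : ℕ) : O p) ^ 2 * z i)) b₀ ≠ 0 := by
  intro h0
  have h2 : ∀ l, v p ((((fun i => a i + ((p : ℕ) : O p) ^ 2 * z i) l : O p) :
      AlgebraicClosure ℚ) - (a l : AlgebraicClosure ℚ)) < 1 := by
    intro l
    have h3 : ((a l + ((p : ℕ) : O p) ^ 2 * z l : O p) : AlgebraicClosure ℚ) -
        (a l : AlgebraicClosure ℚ) =
        ((p : ℕ) : AlgebraicClosure ℚ) ^ 2 * (z l : AlgebraicClosure ℚ) := by
      have h4 : ((a l + ((p : ℕ) : O p) ^ 2 * z l : O p) : AlgebraicClosure ℚ) =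
          (a l : AlgebraicClosure ℚ) + (((p : ℕ) : O p) : AlgebraicClosure ℚ) ^ 2 *
            (z l : AlgebraicClosure ℚ) := rfl
      rw [h4, coe_natCast_O, add_sub_cancel_left]
    change v p (((a l + ((p : ℕ) : O p) ^ 2 * z l : O p) : AlgebraicClosure ℚ) -
        (a l : AlgebraicClosure ℚ)) < 1
    rw [h3, v_mul, v_pow]
    calc v p ((p : ℕ) : AlgebraicClosure ℚ) ^ 2 * v p (z l : AlgebraicClosure ℚ)
        ≤ v p ((p : ℕ) : AlgebraicClosure ℚ) ^ 2 * 1 :=
          mul_le_mul_of_nonneg_left (z l).2 (pow_nonneg (v_nonneg p _) _)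
      _ < 1 := by
          rw [mul_one]
          exact pow_lt_one₀ (v_nonneg p _) (v_self_lt p) (by norm_num)
  have h3 := close_eval p b₀ _ _ one_pos (orbit_close p f₀ _ _ h2 n)
  have h4 : ((eval ((pmap f₀)^[n] (fun i => a i + ((p : ℕ) : O p) ^ 2 * z i)) b₀ : O p) :
      AlgebraicClosure ℚ) = 0 := by
    rw [h0]
    rfl
  rw [h4, zero_sub, v_neg, h] at h3
  exact lt_irrefl _ h3

/-- **FLW**: at almost all places some iterate of `f` is conjugate, on a small disc, to a map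
`G = X + p H` with integral `H`. -/
theorem exists_flow {N : ℕ} (f : Fin N → MvPolynomial (Fin N) (AlgebraicClosure ℚ))
    (hf : jac f ≠ 0) (b : MvPolynomial (Fin N) (AlgebraicClosure ℚ)) (hb : b ≠ 0) {d : ℕ}
    (hd : ∀ i, (f i).totalDegree ≤ d) :
    ∃ M : ℕ, ∀ p : Nat.Primes, M < p →
      ∃ (k : ℕ) (a : Fin N → O p) (H : Fin N → MvPolynomial (Fin N) (O p)), 1 ≤ k ∧
        (∀ i, (map (O p).subtype (X i + C ((p : ℕ) : O p) * H i)).totalDegree ≤ d ^ k) ∧
        (∀ z : Fin N → AlgebraicClosure ℚ,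
          (pmap f)^[k] (fun i => (a i : AlgebraicClosure ℚ) +
            ((p : ℕ) : AlgebraicClosure ℚ) ^ 2 * z i) =
          fun i => (a i : AlgebraicClosure ℚ) + ((p : ℕ) : AlgebraicClosure ℚ) ^ 2 *
            pmap (fun i => map (O p).subtype (X i + C ((p : ℕ) : O p) * H i)) z i) ∧
        (∀ (n : ℕ) (z : Fin N → O p), eval ((pmap f)^[n] (fun i => (a i : AlgebraicClosure ℚ) +
            ((p : ℕ) : AlgebraicClosure ℚ) ^ 2 * (z i : AlgebraicClosure ℚ))) b ≠ 0) := by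
  classical
  obtain ⟨M, hM⟩ := exists_good f hf b hb
  refine ⟨M, fun p hp => ?_⟩
  obtain ⟨f₀, b₀, a₀, hf₀, hb₀, hgood⟩ := hM p hp
  obtain ⟨i₀, k, hk, hrec, hmat⟩ := exists_recurrent p f₀ a₀ (fun n => (hgood n).2)
  obtain ⟨H, hH⟩ := flow_identity (itr f₀ k) ((pmap f₀)^[i₀] a₀) ((p : ℕ) : O p)
    (fun i => by
      obtain ⟨c, hc⟩ := hrec i
      refine ⟨c, ?_⟩
      rw [← hc, ← pmap_itr f₀ k]
      rfl) hmat
  have hϖ : (O p).subtype ((p : ℕ) : O p) = ((p : ℕ) : AlgebraicClosure ℚ) := coe_natCast_O p p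
  have hp0 : (O p).subtype ((p : ℕ) : O p) ≠ 0 := by
    rw [hϖ]
    exact_mod_cast p.2.ne_zero
  have hitr : (fun i => map (O p).subtype (itr f₀ k i)) = itr f k := by
    rw [← hf₀, itr_map]
  refine ⟨k, (pmap f₀)^[i₀] a₀, H, hk, ?_, ?_, ?_⟩
  · intro i
    refine (flow_degree (O p).subtype (itr f₀ k) _ _ hp0 H hH i).trans ?_
    rw [congrFun hitr i]
    exact totalDegree_itr_le f hd k i
  · intro z
    have h1 := flow_eval (O p).subtype (itr f₀ k) _ _ H hH z
    rw [hitr, pmap_itr, hϖ] at h1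
    exact h1
  · intro n z h0
    apply disc_avoid p f₀ b₀ ((pmap f₀)^[i₀] a₀) n
      (by rw [← Function.iterate_add_apply]; exact (hgood _).1) z
    apply (O p).subtype_injective
    rw [map_zero, ← eval_map_apply, hb₀, ← pmap_iterate_map, hf₀]
    rw [← h0]
    congr 2

end Pool.Agent.H8.HZ
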