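import Pool.Agent.H8.HZ.FBA
import Pool.Agent.H8.HZ.INJ

/-!
# Frobenius points
-/

open MvPolynomial

namespace Pool.Agent.H8.HZ

theorem aeval_eq_eval_apply {R : Type*} [CommRing R] {N : ℕ} (x : Fin N → R)
    (b : MvPolynomial (Fin N) R) : aeval x b = eval x b := rfl

theorem totalDegree_aeval_le {R : Type*} [CommRing R] {N M : ℕ}
    (f : Fin N → MvPolynomial (Fin M) R) {d : ℕ} (hd : ∀ i, (f i).totalDegree ≤ d)
    (g : MvPolynomial (Fin N) R) : (aeval f g).totalDegree ≤ g.totalDegree * d := by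
  rw [aeval_def, eval₂_eq]
  apply totalDegree_finsetSum_le
  intro m hm
  refine (totalDegree_mul _ _).trans ?_
  rw [algebraMap_eq, totalDegree_C, zero_add]
  refine (totalDegree_finsetProd _ _).trans ?_
  calc ∑ i ∈ m.support, (f i ^ m i).totalDegree ≤ ∑ i ∈ m.support, m i * d :=
        Finset.sum_le_sum fun i _ => (totalDegree_pow _ _).trans (Nat.mul_le_mul_left _ (hd i))
    _ = (m.sum fun _ e => e) * d := by rw [Finsupp.sum, Finset.sum_mul]
    _ ≤ g.totalDegree * d := Nat.mul_le_mul_right _ (le_totalDegree hm)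

/-- the successive powers of `b` modulo the ideal -/
noncomputable def Bj {κ : Type*} [Field κ] (p : ℕ) [Fact p.Prime] [CharP κ p] (m : ℕ) {N : ℕ}
    (f : Fin N → MvPolynomial (Fin N) κ) (b : MvPolynomial (Fin N) κ) :
    ℕ → MvPolynomial (Fin N) κ
  | 0 => b
  | j + 1 => aeval f (map (iterateFrobenius κ p m) (Bj p m f b j))

theorem aeval_map_sub_mem {κ : Type*} [Field κ] (p : ℕ) [Fact p.Prime] [CharP κ p] (m : ℕ) {N : ℕ}
    (f : Fin N → MvPolynomial (Fin N) κ) (b : MvPolynomial (Fin N) κ) :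
    b ^ (p ^ m) - aeval f (map (iterateFrobenius κ p m) b) ∈
      Ideal.span (Set.range fun i => X i ^ (p ^ m) - f i) := by
  set I := Ideal.span (Set.range fun i => X i ^ (p ^ m) - f i) with hI
  rw [← Ideal.Quotient.eq_zero_iff_mem, map_sub, sub_eq_zero]
  have h1 : ∀ g : MvPolynomial (Fin N) κ, Ideal.Quotient.mk I (expand (p ^ m) g) =
      Ideal.Quotient.mk I (aeval f g) := by
    intro g
    have h2 : (Ideal.Quotient.mkₐ κ I).comp (expand (p ^ m)) =
        (Ideal.Quotient.mkₐ κ I).comp (aeval f) := by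
      apply algHom_ext
      intro i
      rw [AlgHom.comp_apply, AlgHom.comp_apply, expand_X, aeval_X, Ideal.Quotient.mkₐ_eq_mk,
        ← sub_eq_zero, ← map_sub, Ideal.Quotient.eq_zero_iff_mem]
      exact Ideal.subset_span ⟨i, rfl⟩
    exact AlgHom.congr_fun h2 g
  rw [← h1, ← map_expand, map_iterateFrobenius_expand]

theorem pow_sub_Bj_mem {κ : Type*} [Field κ] (p : ℕ) [Fact p.Prime] [CharP κ p] (m : ℕ) {N : ℕ}
    (f : Fin N → MvPolynomial (Fin N) κ) (b : MvPolynomial (Fin N) κ) (j : ℕ) :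
    b ^ ((p ^ m) ^ j) - Bj p m f b j ∈
      Ideal.span (Set.range fun i => X i ^ (p ^ m) - f i) := by
  induction j with
  | zero => rw [pow_zero, pow_one, Bj, sub_self]; exact Ideal.zero_mem _
  | succ j ih =>
    set I := Ideal.span (Set.range fun i => X i ^ (p ^ m) - f i) with hI
    have h1 := aeval_map_sub_mem p m f (Bj p m f b j)
    rw [← Ideal.Quotient.eq_zero_iff_mem, map_sub, sub_eq_zero] at h1 ih
    rw [← Ideal.Quotient.eq_zero_iff_mem, map_sub, sub_eq_zero, Bj, ← h1, pow_succ, pow_mul,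
      map_pow, ih, ← map_pow]

/-- **FRX**: there are points with `f x = x ^ Q` and `b x ≠ 0`. -/
theorem exists_frob_point {κ : Type*} [Field κ] [IsAlgClosed κ] (p : ℕ) [hp : Fact p.Prime]
    [CharP κ p] {N : ℕ} (f : Fin N → MvPolynomial (Fin N) κ) (b : MvPolynomial (Fin N) κ)
    (hf : jac f ≠ 0) (hb : b ≠ 0) {d m : ℕ} (hd : ∀ i, (f i).totalDegree ≤ d)
    (h1 : d < p ^ m) (h2 : b.totalDegree * d ^ N < p ^ m) :
    ∃ x : Fin N → κ, (∀ i, eval x (f i) = x i ^ (p ^ m)) ∧ eval x b ≠ 0 := by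
  by_contra hcon
  push Not at hcon
  have hQ : ∀ i, Lo (p ^ m) (f i) := fun i => Lo.of_totalDegree (lt_of_le_of_lt (hd i) h1)
  have hrad : b ∈ (Ideal.span (Set.range fun i => X i ^ (p ^ m) - f i)).radical := by
    rw [← vanishingIdeal_zeroLocus_eq_radical (K := κ), mem_vanishingIdeal_iff]
    intro x hx
    rw [mem_zeroLocus_iff] at hx
    have h3 : ∀ i, eval x (f i) = x i ^ (p ^ m) := by
      intro i
      have h4 := hx _ (Ideal.subset_span ⟨i, rfl⟩)
      rw [map_sub, map_pow, aeval_X, sub_eq_zero] at h4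
      rw [h4]
      exact (aeval_eq_eval_apply x (f i)).symm
    have := hcon x h3
    rw [aeval_eq_eval_apply x b]
    exact this
  obtain ⟨M, hM⟩ := hrad
  have h3 := pow_mem_of_pow_mem hQ (pow_pos hp.out.pos m) hM
  have h4 := pow_sub_Bj_mem p m f b N
  have h5 : Bj p m f b N ∈ Ideal.span (Set.range fun i => X i ^ (p ^ m) - f i) := by
    have := Ideal.sub_mem _ h3 h4
    rwa [sub_sub_cancel] at this
  have h6 : ∀ j, Bj p m f b j ≠ 0 ∧ (Bj p m f b j).totalDegree ≤ b.totalDegree * d ^ j := by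
    intro j
    induction j with
    | zero => rw [pow_zero, mul_one]; exact ⟨hb, le_rfl⟩
    | succ j ih =>
      refine ⟨?_, ?_⟩
      · rw [Bj]
        intro h0
        have h7 := inj_char_p p f hf _ h0
        rw [← map_zero (map (iterateFrobenius κ p m))] at h7
        exact ih.1 (map_injective _ (iterateFrobenius κ p m).injective h7)
      · rw [Bj]
        refine (totalDegree_aeval_le f hd _).trans ?_
        rw [pow_succ, ← mul_assoc]
        refine Nat.mul_le_mul_right _ (le_trans ?_ ih.2)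
        exact totalDegree_le_of_support_subset (support_map_subset _ _)
  exact (h6 N).1 (eq_zero_of_mem hQ (Lo.of_totalDegree (lt_of_le_of_lt (h6 N).2 h2)) h5)

/-- if the coefficients of `g` are fixed by the Frobenius power then evaluation commutes with it -/
theorem eval_pow_of_fixed {κ : Type*} [Field κ] (p : ℕ) [Fact p.Prime] [CharP κ p] (m : ℕ) {N : ℕ}
    (g : MvPolynomial (Fin N) κ) (hg : ∀ u, coeff u g ^ (p ^ m) = coeff u g) (x : Fin N → κ) :
    eval (fun i => x i ^ (p ^ m)) g = eval x g ^ (p ^ m) := by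
  have h1 : map (iterateFrobenius κ p m) g = g := by
    ext u
    rw [coeff_map, iterateFrobenius_def, hg]
  have h2 : eval x g ^ (p ^ m) = iterateFrobenius κ p m (eval x g) := by
    rw [iterateFrobenius_def]
  have h3 : iterateFrobenius κ p m (eval x g) =
      eval (fun i => x i ^ (p ^ m)) (map (iterateFrobenius κ p m) g) := by
    rw [eval_map, eval₂_eq', eval_eq', map_sum]
    apply Finset.sum_congr rfl
    intro u _
    rw [map_mul, map_prod]
    congr 1
    apply Finset.prod_congr rfl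
    intro i _
    rw [map_pow, iterateFrobenius_def]
  rw [h2, h3, h1]

end Pool.Agent.H8.HZ
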