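import Pool.Agent.H8.HZ.GOD

/-!
# Iterates of polynomial maps, their jacobian matrices, Taylor expansion
-/

open MvPolynomial IsLocalRing Pool.Agent.H12.ZD

namespace Pool.Agent.H8.HZ

section general

variable {R S : Type*} [CommRing R] [CommRing S] {N : ℕ}

/-- the iterates of a polynomial map -/
noncomputable def itr (f : Fin N → MvPolynomial (Fin N) R) : ℕ → Fin N → MvPolynomial (Fin N) R
  | 0 => X
  | n + 1 => fun i => aeval (itr f n) (f i)

theorem eval_aeval (g : Fin N → MvPolynomial (Fin N) R) (h : MvPolynomial (Fin N) R)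
    (z : Fin N → R) : eval z (aeval g h) = eval (pmap g z) h := by
  induction h using MvPolynomial.induction_on with
  | C a => simp
  | add a b ha hb => rw [map_add, map_add, map_add, ha, hb]
  | mul_X a i ha =>
    rw [map_mul, map_mul, map_mul, ha, aeval_X, eval_X]
    rfl

theorem pmap_itr (f : Fin N → MvPolynomial (Fin N) R) (n : ℕ) (z : Fin N → R) :
    pmap (itr f n) z = (pmap f)^[n] z := by
  induction n with
  | zero => ext i; simp [pmap, itr]
  | succ n ih =>
    rw [Function.iterate_succ_apply', ← ih]
    ext i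
    exact eval_aeval (itr f n) (f i) z

theorem map_aeval' (φ : R →+* S) (g : Fin N → MvPolynomial (Fin N) R)
    (h : MvPolynomial (Fin N) R) :
    map φ (aeval g h) = aeval (fun i => map φ (g i)) (map φ h) := by
  induction h using MvPolynomial.induction_on with
  | C a => simp
  | add a b ha hb => simp only [map_add, ha, hb]
  | mul_X a i ha => simp only [map_mul, ha, aeval_X, map_X]

theorem itr_map (φ : R →+* S) (f : Fin N → MvPolynomial (Fin N) R) (n : ℕ) :
    itr (fun i => map φ (f i)) n = fun i => map φ (itr f n i) := by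
  induction n with
  | zero => ext1 i; simp [itr]
  | succ n ih =>
    ext1 i
    rw [itr, itr, ih, map_aeval']

theorem totalDegree_itr_le (f : Fin N → MvPolynomial (Fin N) R) [Nontrivial R] {d : ℕ}
    (hd : ∀ i, (f i).totalDegree ≤ d) (n : ℕ) (i : Fin N) : (itr f n i).totalDegree ≤ d ^ n := by
  induction n generalizing i with
  | zero => rw [itr, totalDegree_X, pow_zero]
  | succ n ih =>
    rw [itr, pow_succ']
    exact (totalDegree_aeval_le (itr f n) ih (f i)).trans (Nat.mul_le_mul_right _ (hd i))

/-- the jacobian matrix at a point -/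
noncomputable def Dm (f : Fin N → MvPolynomial (Fin N) R) (z : Fin N → R) :
    Matrix (Fin N) (Fin N) R := Matrix.of fun i j => eval z (pderiv j (f i))

theorem det_Dm (f : Fin N → MvPolynomial (Fin N) R) (z : Fin N → R) :
    (Dm f z).det = eval z (jac f) := by
  rw [jac, RingHom.map_det]
  rfl

theorem Dm_comp (f g : Fin N → MvPolynomial (Fin N) R) (z : Fin N → R) :
    Dm (fun i => aeval g (f i)) z = Dm f (pmap g z) * Dm g z := by
  ext i j
  rw [Matrix.mul_apply, Dm, Matrix.of_apply, pderiv_aeval, map_sum]
  apply Finset.sum_congr rfl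
  intro k _
  rw [map_mul, eval_aeval]
  rfl

theorem Dm_X (z : Fin N → R) : Dm (X : Fin N → MvPolynomial (Fin N) R) z = 1 := by
  classical
  ext i j
  rw [Dm, Matrix.of_apply, pderiv_X, Pi.single_apply, Matrix.one_apply]
  split_ifs <;> simp

theorem Dm_itr_succ (f : Fin N → MvPolynomial (Fin N) R) (n : ℕ) (z : Fin N → R) :
    Dm (itr f (n + 1)) z = Dm f ((pmap f)^[n] z) * Dm (itr f n) z := by
  rw [← pmap_itr]
  exact Dm_comp f (itr f n) z

theorem Dm_itr_add (f : Fin N → MvPolynomial (Fin N) R) (m n : ℕ) (z : Fin N → R) :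
    Dm (itr f (m + n)) z = Dm (itr f m) ((pmap f)^[n] z) * Dm (itr f n) z := by
  induction m with
  | zero => rw [zero_add, itr, Dm_X, one_mul]
  | succ m ih =>
    rw [show m + 1 + n = (m + n) + 1 by ring, Dm_itr_succ, ih, Dm_itr_succ, Matrix.mul_assoc,
      Function.iterate_add_apply]

theorem eval_map_apply (φ : R →+* S) (g : MvPolynomial (Fin N) R) (z : Fin N → R) :
    eval (fun i => φ (z i)) (map φ g) = φ (eval z g) := by
  rw [eval_map, eval₂_comp]
  rfl

theorem Dm_map (φ : R →+* S) (f : Fin N → MvPolynomial (Fin N) R) (z : Fin N → R) (i j : Fin N) :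
    Dm (fun i => map φ (f i)) (fun i => φ (z i)) i j = φ (Dm f z i j) := by
  rw [Dm, Matrix.of_apply, pderiv_map, eval_map_apply]
  rfl

/-- **Taylor expansion** -/
theorem taylor (a : Fin N → R) (t : R) (g : MvPolynomial (Fin N) R) :
    ∃ h : MvPolynomial (Fin N) R, aeval (fun i => C (a i) + C t * X i) g =
      C (eval a g) + C t * (∑ j, C (eval a (pderiv j g)) * X j) + C (t ^ 2) * h := by
  classical
  induction g using MvPolynomial.induction_on with
  | C c =>
    refine ⟨0, ?_⟩
    simp
  | add g g' hg hg' =>
    obtain ⟨h, hh⟩ := hg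
    obtain ⟨h', hh'⟩ := hg'
    refine ⟨h + h', ?_⟩
    simp only [map_add, hh, hh', add_mul, Finset.sum_add_distrib]
    ring
  | mul_X g i hg =>
    obtain ⟨h, hh⟩ := hg
    refine ⟨h * (C (a i) + C t * X i) + (∑ j, C (eval a (pderiv j g)) * X j) * X i, ?_⟩
    have h1 : ∑ j, C (eval a (pderiv j (g * X i))) * X j =
        (∑ j, C (eval a (pderiv j g)) * X j) * C (a i) + C (eval a g) * X i := by
      have h2 : ∀ j, C (eval a (pderiv j (g * X i))) * X j =
          C (eval a (pderiv j g)) * X j * C (a i) +
            (if j = i then C (eval a g) * X i else 0) := by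
        intro j
        rw [pderiv_mul, map_add, map_mul, map_mul, eval_X]
        by_cases hj : j = i
        · subst hj
          rw [pderiv_X_self, map_one, if_pos rfl, mul_one, C_add, C_mul]
          ring
        · rw [pderiv_X_of_ne (Ne.symm hj), map_zero, if_neg hj, mul_zero, add_zero, add_zero, C_mul]
          ring
      simp only [h2, Finset.sum_add_distrib, Finset.sum_ite_eq', Finset.mem_univ, if_true,
        Finset.sum_mul]
    rw [map_mul, aeval_X, hh, h1, map_mul, eval_X, C_mul, C_pow]
    ring

end general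

end Pool.Agent.H8.HZ
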